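import Mathlib

/-!
Combinatorial core: a family of sets of point-finite rank that is closed under directed unions
contains a subfamily that is still a base and is well-quasi-ordered by reverse inclusion at
every point.
-/

open Set

namespace Pool.Agent.Lib.MP_bc8021_gt

variable {X : Type*}

/-- The sets all of whose finite subsets lie in a member of the family inside the set. -/
def cl (N : Set (Set X)) : Set (Set X) :=
  {M | ∀ S : Set X, S.Finite → S ⊆ M → ∃ D ∈ N, S ⊆ D ∧ D ⊆ M}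

lemma subset_cl (N : Set (Set X)) : N ⊆ cl N :=
  fun D hD _ _ hS => ⟨D, hD, hS, Subset.rfl⟩

lemma cl_mono {N N' : Set (Set X)} (h : N ⊆ N') : cl N ⊆ cl N' := by
  intro M hM S hS hSM
  obtain ⟨D, hD, h1, h2⟩ := hM S hS hSM
  exact ⟨D, h hD, h1, h2⟩

lemma cl_cl (N : Set (Set X)) : cl (cl N) ⊆ cl N := by
  intro M hM S hS hSM
  obtain ⟨D, hD, h1, h2⟩ := hM S hS hSM
  obtain ⟨E, hE, h3, h4⟩ := hD S hS h1
  exact ⟨E, hE, h3, h4.trans h2⟩

lemma sUnion_mem_cl {N c : Set (Set X)} (hc : c ⊆ N) (hch : IsChain (· ⊆ ·) c)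
    (hne : c.Nonempty) : ⋃₀ c ∈ cl N := by
  intro S hS hSM
  obtain ⟨D, hD, h1⟩ := hch.directedOn.exists_mem_subset_of_finite_of_subset_sUnion hne hS hSM
  exact ⟨D, hc hD, h1, subset_sUnion_of_mem hD⟩

lemma exists_maximal_cl {N : Set (Set X)} {D : Set X} (hD : D ∈ cl N) :
    ∃ M, D ⊆ M ∧ Maximal (· ∈ cl N) M := by
  refine zorn_subset_nonempty (cl N) ?_ D hD
  intro c hc hch hne
  exact ⟨⋃₀ c, cl_cl N (sUnion_mem_cl hc hch hne), fun s hs => subset_sUnion_of_mem hs⟩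

lemma exists_maximal_sub {C : Set (Set X)} (hcl : cl C ⊆ C) (O : Set X) {D : Set X}
    (hD : D ∈ C) (hDO : D ⊆ O) :
    ∃ M, D ⊆ M ∧ Maximal (fun Z => Z ∈ C ∧ Z ⊆ O) M := by
  refine zorn_subset_nonempty {Z | Z ∈ C ∧ Z ⊆ O} ?_ D ⟨hD, hDO⟩
  intro c hc hch hne
  refine ⟨⋃₀ c, ⟨hcl (sUnion_mem_cl (fun s hs => (hc hs).1) hch hne), ?_⟩,
    fun s hs => subset_sUnion_of_mem hs⟩
  exact sUnion_subset fun s hs => (hc hs).2

/-- Finite antichains of members through the point have at most n elements. -/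
def Wid (C : Set (Set X)) (x : X) (n : ℕ) : Prop :=
  ∀ T : Finset (Set X), (∀ U ∈ T, U ∈ C ∧ x ∈ U) → IsAntichain (· ⊆ ·) (T : Set (Set X)) →
    T.card ≤ n

lemma Wid.cl {B : Set (Set X)} {x : X} {n : ℕ} (h : Wid B x n) : Wid (cl B) x n := by
  classical
  intro T hT hA
  have : Nonempty X := ⟨x⟩
  have hp : ∀ U ∈ T, ∀ V ∈ T, ∃ p, p ∈ U ∧ (U ≠ V → p ∉ V) := by
    intro U hU V hV
    by_cases hUV : U = V
    · exact ⟨x, (hT U hU).2, fun h => (h hUV).elim⟩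
    · obtain ⟨p, hp1, hp2⟩ := not_subset.1 (hA hU hV hUV)
      exact ⟨p, hp1, fun _ => hp2⟩
  choose! p hp1 hp2 using hp
  have hD : ∀ U ∈ T, ∃ D ∈ B, insert x (p U '' (T : Set (Set X))) ⊆ D ∧ D ⊆ U := by
    intro U hU
    refine (hT U hU).1 _ ((T.finite_toSet.image _).insert x) ?_
    rintro y (rfl | ⟨V, hV, rfl⟩)
    · exact (hT U hU).2
    · exact hp1 U hU V hV
  choose! D hDB hD1 hD2 using hD
  have key : ∀ U ∈ T, ∀ V ∈ T, U ≠ V → ¬ D U ⊆ D V := by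
    intro U hU V hV hUV hsub
    exact hp2 U hU V hV hUV (hD2 V hV (hsub (hD1 U hU (Or.inr ⟨V, hV, rfl⟩))))
  have hinj : Set.InjOn D (T : Set (Set X)) := by
    intro U hU V hV hUV
    by_contra hne
    exact key U hU V hV hne (hUV ▸ Subset.rfl)
  rw [← Finset.card_image_of_injOn hinj]
  refine h _ ?_ ?_
  · intro W hW
    obtain ⟨U, hU, rfl⟩ := Finset.mem_image.1 hW
    exact ⟨hDB U hU, hD1 U hU (Or.inl rfl)⟩
  · intro W hW W' hW' hne
    obtain ⟨U, hU, rfl⟩ := Finset.mem_image.1 (Finset.mem_coe.1 hW)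
    obtain ⟨V, hV, rfl⟩ := Finset.mem_image.1 (Finset.mem_coe.1 hW')
    exact key U hU V hV (fun h => hne (h ▸ rfl))

lemma Wid.exists_subset {C : Set (Set X)} {x : X} {n : ℕ} (h : Wid C x n) (f : ℕ → Set X)
    (hf : ∀ j, f j ∈ C ∧ x ∈ f j) (hbad : ∀ j k, j < k → ¬ f k ⊆ f j) :
    ∃ j k, j < k ∧ f j ⊆ f k := by
  classical
  by_contra hcon
  push Not at hcon
  have key : ∀ j k, j ≠ k → ¬ f j ⊆ f k := by
    intro j k hjk
    rcases lt_or_gt_of_ne hjk with h1 | h1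
    · exact hcon j k h1
    · exact hbad k j h1
  have hinj : Function.Injective f := by
    intro j k hjk
    by_contra hne
    exact key j k hne (hjk ▸ Subset.rfl)
  have := h ((Finset.range (n + 1)).image f) ?_ ?_
  · rw [Finset.card_image_of_injective _ hinj, Finset.card_range] at this
    omega
  · intro W hW
    obtain ⟨j, -, rfl⟩ := Finset.mem_image.1 hW
    exact hf j
  · intro W hW W' hW' hne
    obtain ⟨j, -, rfl⟩ := Finset.mem_image.1 (Finset.mem_coe.1 hW)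
    obtain ⟨k, -, rfl⟩ := Finset.mem_image.1 (Finset.mem_coe.1 hW')
    exact key j k (fun h => hne (h ▸ rfl))

/-- The members through each point are well-quasi-ordered by reverse inclusion. -/
def PW (W : Set (Set X)) : Prop :=
  ∀ p, {U | U ∈ W ∧ p ∈ U}.PartiallyWellOrderedOn (· ⊇ ·)

lemma pw_of_no_increasing {C W : Set (Set X)} (hw : ∀ x, ∃ n, Wid C x n) (hWC : W ⊆ C)
    (h : ∀ (p : X) (f : ℕ → Set X), (∀ j, f j ∈ W ∧ p ∈ f j) →
      (∀ j k, j < k → f j ⊆ f k) → (∀ j k, j < k → ¬ f k ⊆ f j) → False) : PW W := by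
  intro p
  rw [partiallyWellOrderedOn_iff_exists_lt]
  intro f hf
  by_contra hcon
  push Not at hcon
  obtain ⟨g, hg | hg⟩ := exists_increasing_or_nonincreasing_subseq (· ⊆ ·) f
  · exact h p (f ∘ g) (fun j => hf _) hg (fun j k hjk => hcon _ _ (g.strictMono hjk))
  · obtain ⟨n, hn⟩ := hw p
    obtain ⟨j, k, hjk, hsub⟩ := hn.exists_subset (f ∘ g) (fun j => ⟨hWC (hf _).1, (hf _).2⟩)
      (fun j k hjk => hcon _ _ (g.strictMono hjk))
    exact hg j k hjk hsub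

/-- A thread at a point: a downward directed family of members through the point such that no
member through the point lies inside all of them. -/
structure Thread (C : Set (Set X)) (x : X) (Δ : Set (Set X)) : Prop where
  sub : ∀ U ∈ Δ, U ∈ C ∧ x ∈ U
  ne : Δ.Nonempty
  dir : ∀ U ∈ Δ, ∀ V ∈ Δ, ∃ W ∈ Δ, W ⊆ U ∧ W ⊆ V
  deg : ∀ N ∈ C, x ∈ N → ∃ U ∈ Δ, ¬ N ⊆ U

lemma Thread.finset_below {C : Set (Set X)} {x : X} {Δ : Set (Set X)} (h : Thread C x Δ)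
    {ι : Type*} (G : Finset ι) (u : ι → Set X) (hu : ∀ i ∈ G, u i ∈ Δ) :
    ∃ W ∈ Δ, ∀ i ∈ G, W ⊆ u i := by
  classical
  induction G using Finset.induction_on with
  | empty => obtain ⟨W, hW⟩ := h.ne; exact ⟨W, hW, by simp⟩
  | insert a G ha ih =>
    obtain ⟨W, hW, hWG⟩ := ih (fun i hi => hu i (Finset.mem_insert_of_mem hi))
    obtain ⟨Z, hZ, h1, h2⟩ := h.dir W hW (u a) (hu a (Finset.mem_insert_self _ _))
    refine ⟨Z, hZ, fun i hi => ?_⟩
    rcases Finset.mem_insert.1 hi with rfl | hi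
    · exact h2
    · exact h1.trans (hWG i hi)

lemma ultra_large {C : Set (Set X)} {x : X} {n : ℕ} (hw : Wid C x n) (F : Ultrafilter (Set X))
    (hC : {W | W ∈ C ∧ x ∈ W} ∈ F) (hdeg : ∀ N ∈ C, x ∈ N → {W | ¬ N ⊆ W} ∈ F)
    (A : Set (Set X)) (hA : A ∈ F) : ∃ W ∈ A, {Z | Z ⊆ W} ∈ F := by
  classical
  by_contra hcon
  push Not at hcon
  have main : ∀ m : ℕ, ∃ T : Finset (Set X), T.card = m ∧ (∀ U ∈ T, U ∈ A ∧ U ∈ C ∧ x ∈ U) ∧
      IsAntichain (· ⊆ ·) (T : Set (Set X)) := by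
    intro m
    induction m with
    | zero => exact ⟨∅, rfl, by simp, by simp [IsAntichain]⟩
    | succ m ih =>
      obtain ⟨T, hT, hTA, hanti⟩ := ih
      have h1 : (⋂ U ∈ T, {Z | ¬ Z ⊆ U ∧ ¬ U ⊆ Z}) ∈ (F : Filter (Set X)) := by
        rw [Filter.biInter_finset_mem]
        intro U hU
        have a1 : {Z | Z ⊆ U}ᶜ ∈ F := Ultrafilter.compl_mem_iff_notMem.2 (hcon U (hTA U hU).1)
        have a2 := hdeg U (hTA U hU).2.1 (hTA U hU).2.2
        exact Filter.inter_mem a1 a2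
      obtain ⟨Z, ⟨hZA, hZC⟩, hZ⟩ := F.nonempty_of_mem (Filter.inter_mem (Filter.inter_mem hA hC) h1)
      simp only [mem_iInter, mem_ofPred_eq] at hZ
      have hZT : Z ∉ T := fun hmem => (hZ Z hmem).1 Subset.rfl
      refine ⟨insert Z T, by rw [Finset.card_insert_of_notMem hZT, hT], ?_, ?_⟩
      · intro U hU
        rcases Finset.mem_insert.1 hU with rfl | hU
        · exact ⟨hZA, hZC⟩
        · exact hTA U hU
      · rw [Finset.coe_insert]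
        exact hanti.insert (fun U hU _ => (hZ U hU).2) (fun U hU _ => (hZ U hU).1)
  obtain ⟨T, hT, hTA, hanti⟩ := main (n + 1)
  have := hw T (fun U hU => (hTA U hU).2) hanti
  omega

lemma extract {C : Set (Set X)} {x : X} {n : ℕ} (hw : Wid C x n) {α : Type*} (D : Set α)
    (A : α → Set (Set X)) (hne : D.Nonempty)
    (hdir : ∀ d ∈ D, ∀ d' ∈ D, ∃ e ∈ D, A e ⊆ A d ∧ A e ⊆ A d')
    (hA : ∀ d ∈ D, (A d).Nonempty) (hC : ∀ d ∈ D, ∀ W ∈ A d, W ∈ C ∧ x ∈ W)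
    (hdeg : ∀ N ∈ C, x ∈ N → ∃ d ∈ D, ∀ W ∈ A d, ¬ N ⊆ W) :
    ∃ Δ, Thread C x Δ ∧ (∀ W ∈ Δ, ∃ d ∈ D, W ∈ A d) ∧ ∀ d ∈ D, ∃ W ∈ Δ, W ∈ A d := by
  have : Nonempty D := hne.to_subtype
  let G : Filter (Set X) := ⨅ d : D, Filter.principal (A d)
  have hG : G.NeBot := by
    refine Filter.iInf_neBot_of_directed' ?_ ?_
    · intro d d'
      obtain ⟨e, he, h1, h2⟩ := hdir d d.2 d' d'.2
      exact ⟨⟨e, he⟩, Filter.principal_mono.2 h1, Filter.principal_mono.2 h2⟩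
    · intro d
      exact Filter.principal_neBot_iff.2 (hA d d.2)
  let F : Ultrafilter (Set X) := Ultrafilter.of G
  have hF : ∀ d ∈ D, A d ∈ F := by
    intro d hd
    exact Ultrafilter.of_le G (Filter.mem_iInf_of_mem (⟨d, hd⟩ : D) (Filter.mem_principal_self _))
  obtain ⟨d0, hd0⟩ := hne
  have hC' : {W | W ∈ C ∧ x ∈ W} ∈ F :=
    Filter.mem_of_superset (hF d0 hd0) (fun W hW => hC d0 hd0 W hW)
  have hdeg' : ∀ N ∈ C, x ∈ N → {W | ¬ N ⊆ W} ∈ F := by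
    intro N hN hx
    obtain ⟨d, hd, h⟩ := hdeg N hN hx
    exact Filter.mem_of_superset (hF d hd) (fun W hW => h W hW)
  have key : ∀ B ∈ F, ∃ W ∈ {W | W ∈ A d0 ∧ {Z | Z ⊆ W} ∈ F}, W ∈ B := by
    intro B hB
    obtain ⟨W, ⟨h1, h2⟩, h3⟩ := ultra_large hw F hC' hdeg' (A d0 ∩ B)
      (Filter.inter_mem (hF d0 hd0) hB)
    exact ⟨W, ⟨h1, h3⟩, h2⟩
  refine ⟨{W | W ∈ A d0 ∧ {Z | Z ⊆ W} ∈ F}, ⟨?_, ?_, ?_, ?_⟩, ?_, ?_⟩
  · intro U hU
    exact hC d0 hd0 U hU.1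
  · obtain ⟨W, hW, -⟩ := key univ Filter.univ_mem
    exact ⟨W, hW⟩
  · intro U hU V hV
    obtain ⟨W, hW, h⟩ := key _ (Filter.inter_mem hU.2 hV.2)
    exact ⟨W, hW, h⟩
  · intro N hN hx
    exact key _ (hdeg' N hN hx)
  · intro W hW
    exact ⟨d0, hd0, hW.1⟩
  · intro d hd
    exact key _ (hF d hd)

/-- The thread has depth m: there are antichains of size m above it avoiding any finite family
of members through the point. -/
def Depth (C : Set (Set X)) (x : X) (Δ : Set (Set X)) (m : ℕ) : Prop :=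
  ∀ G : Finset (Set X), (∀ N ∈ G, N ∈ C ∧ x ∈ N) → ∃ T : Finset (Set X), T.card = m ∧
    IsAntichain (· ⊆ ·) (T : Set (Set X)) ∧
    ∀ Z ∈ T, Z ∈ C ∧ (∃ U ∈ Δ, U ⊆ Z) ∧ ∀ N ∈ G, ¬ N ⊆ Z

lemma depth_zero (C : Set (Set X)) (x : X) (Δ : Set (Set X)) : Depth C x Δ 0 :=
  fun _ _ => ⟨∅, rfl, by simp [IsAntichain], by simp⟩

lemma depth_succ {C : Set (Set X)} {x : X} {Δ Δ' : Set (Set X)} {m : ℕ} (hD : Depth C x Δ m)
    (hT : Thread C x Δ') (href : ∀ U ∈ Δ, ∃ W ∈ Δ', W ⊆ U)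
    (hnew : ∀ W ∈ Δ', ∀ U ∈ Δ, ¬ U ⊆ W) : Depth C x Δ' (m + 1) := by
  classical
  intro G hG
  have h1 : ∀ N ∈ G, ∃ U ∈ Δ', ¬ N ⊆ U := fun N hN => hT.deg N (hG N hN).1 (hG N hN).2
  choose! u hu1 hu2 using h1
  obtain ⟨W, hW, hWG⟩ := hT.finset_below G u hu1
  obtain ⟨T, hcard, hanti, hTp⟩ := hD (insert W G) (by
    intro N hN
    rcases Finset.mem_insert.1 hN with rfl | hN
    · exact hT.sub _ hW
    · exact hG N hN)
  have hWZ : ∀ Z ∈ T, ¬ W ⊆ Z := fun Z hZ => (hTp Z hZ).2.2 W (Finset.mem_insert_self _ _)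
  have hZW : ∀ Z ∈ T, ¬ Z ⊆ W := by
    intro Z hZ hsub
    obtain ⟨U, hU, hUZ⟩ := (hTp Z hZ).2.1
    exact hnew W hW U hU (hUZ.trans hsub)
  have hWT : W ∉ T := fun hmem => hWZ W hmem Subset.rfl
  refine ⟨insert W T, by rw [Finset.card_insert_of_notMem hWT, hcard], ?_, ?_⟩
  · rw [Finset.coe_insert]
    exact hanti.insert (fun Z hZ _ => hZW Z hZ) (fun Z hZ _ => hWZ Z hZ)
  · intro Z hZ
    rcases Finset.mem_insert.1 hZ with rfl | hZ
    · exact ⟨(hT.sub _ hW).1, ⟨Z, hW, Subset.rfl⟩,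
        fun N hN hsub => hu2 N hN (hsub.trans (hWG N hN))⟩
    · obtain ⟨hZC, ⟨U, hU, hUZ⟩, hZG⟩ := hTp Z hZ
      obtain ⟨V, hV, hVU⟩ := href U hU
      exact ⟨hZC, ⟨V, hV, hVU.trans hUZ⟩, fun N hN => hZG N (Finset.mem_insert_of_mem hN)⟩

end Pool.Agent.Lib.MP_bc8021_gt
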