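import Mathlib

open Set

namespace Pool.Agent.Lib.MP_bc8021_gt

/-- The family `Γ` has rank at most `n` at `x`: every subfamily whose members all contain `x`
and which is an antichain under inclusion has at most `n` members. -/
def RankLEAt {X : Type*} (Γ : Set (Set X)) (n : ℕ) (x : X) : Prop :=
  ∀ A ⊆ Γ, (∀ U ∈ A, x ∈ U) → IsAntichain (· ⊆ ·) A → A.encard ≤ n

/-- The family `Γ` has point-finite rank: at each point it has some finite rank. -/
def PointFiniteRank {X : Type*} (Γ : Set (Set X)) : Prop :=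
  ∀ x : X, ∃ n : ℕ, RankLEAt Γ n x

/-- Every open cover has a point-finite open refinement. -/
def Metacompact (X : Type*) [TopologicalSpace X] : Prop :=
  ∀ 𝒰 : Set (Set X), (∀ U ∈ 𝒰, IsOpen U) → ⋃₀ 𝒰 = univ →
    ∃ 𝒱 : Set (Set X), (∀ V ∈ 𝒱, IsOpen V) ∧ ⋃₀ 𝒱 = univ ∧ (∀ V ∈ 𝒱, ∃ U ∈ 𝒰, V ⊆ U) ∧
      ∀ x : X, {V | V ∈ 𝒱 ∧ x ∈ V}.Finite

end Pool.Agent.Lib.MP_bc8021_gt
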