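import Pool.Agent.Lib.MP_bc8021_gt.Defs

open Set

namespace Pool.Agent.Lib.MP_bc8021_gt

/-- Every countable open cover has a point-finite open refinement. -/
def CountablyMetacompact (X : Type*) [TopologicalSpace X] : Prop :=
  ∀ 𝒰 : Set (Set X), 𝒰.Countable → (∀ U ∈ 𝒰, IsOpen U) → ⋃₀ 𝒰 = univ →
    ∃ 𝒱 : Set (Set X), (∀ V ∈ 𝒱, IsOpen V) ∧ ⋃₀ 𝒱 = univ ∧ (∀ V ∈ 𝒱, ∃ U ∈ 𝒰, V ⊆ U) ∧
      ∀ x : X, {V | V ∈ 𝒱 ∧ x ∈ V}.Finite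

end Pool.Agent.Lib.MP_bc8021_gt
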