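import Pool.Agent.Lib.MP_bc8021_gt.Top

/-!
The product theorem without separation axioms: a finite product of spaces with bases of
point-finite rank is metacompact exactly when the closures of points are compact.
-/

open Set TopologicalSpace

namespace Pool.Agent.Lib.MP_bc8021_gt

theorem exists_pw_base_on {X : Type*} {I : Type*} [LinearOrder I] [WellFoundedLT I]
    {C : Set (Set X)} {P : Set X → Set I} (hcl : cl C ⊆ C) (hP : Markers P)
    (hw : ∀ x, ∃ n, Wid C x n) (Y : Set X)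
    (hbase : ∀ x, ∀ D ∈ C, ∀ E ∈ C, x ∈ D → x ∈ E → ∃ Z ∈ C, x ∈ Z ∧ Z ⊆ D ∩ E)
    (hsep : ∀ x, ∀ N ∈ C, x ∈ N → ∀ i, ∃ E ∈ C, x ∈ E ∧ E ⊆ N ∧ i ∉ P E)
    (hsame : ∀ V ∈ C, P V = ∅ → ∀ x ∈ V ∩ Y, ∀ y ∈ V ∩ Y, ∀ W ∈ C, y ∈ W → x ∈ W) :
    ∃ F ⊆ C, PW F ∧ ∀ N ∈ C, ∀ x ∈ Y, x ∈ N → ∃ U ∈ F, x ∈ U ∧ U ⊆ N := by
  classical
  let r : Set X → Set X → Prop := WellOrderingRel
  have hr : IsWellOrder (Set X) r := WellOrderingRel.isWellOrder
  let C0 : Set (Set X) := {V | V ∈ C ∧ P V = ∅ ∧ (V ∩ Y).Nonempty}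
  let F0 : Set (Set X) := {V | V ∈ C0 ∧ ∀ W ∈ C0, W ⊆ V → ¬ r W V}
  have h0 : PW F0 := by
    refine pw_of_no_increasing hw (fun V hV => hV.1.1) ?_
    intro p f hf hinc hbad
    obtain ⟨m, ⟨j, rfl⟩, hmin⟩ := hr.wf.has_min (range f) (range_nonempty f)
    have h1 : ¬ r (f j) (f (j + 1)) :=
      (hf (j + 1)).1.2 _ (hf j).1.1 (hinc j (j + 1) (Nat.lt_succ_self j))
    have h2 : ¬ r (f (j + 1)) (f j) := hmin _ ⟨j + 1, rfl⟩
    have h3 : f j = f (j + 1) := by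
      rcases trichotomous_of r (f j) (f (j + 1)) with h | h | h
      · exact absurd h h1
      · exact h
      · exact absurd h h2
    exact hbad j (j + 1) (Nat.lt_succ_self j) (h3 ▸ Subset.rfl)
  refine ⟨F0 ∪ {U | ∃ k, U ∈ Wk C P k ∧ U ⊆ Ok C k}, ?_, ?_, ?_⟩
  · rintro U (hU | ⟨k, hU, -⟩)
    · exact hU.1.1
    · exact Wk_subset C P k hU
  · intro p
    obtain ⟨n, hn⟩ := hw p
    have h2 : (⋃ k ∈ Finset.range (n + 1), {U | U ∈ Wk C P k ∧ p ∈ U}).PartiallyWellOrderedOn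
        (· ⊇ ·) := by
      rw [Finset.partiallyWellOrderedOn_bUnion]
      intro k _
      exact pw_Wk hcl hw hP k p
    refine ((h0 p).union h2).mono ?_
    rintro U ⟨hU | ⟨k, hU, hO⟩, hp⟩
    · exact Or.inl ⟨hU, hp⟩
    · right
      obtain ⟨T, hcard, hanti, hT⟩ := hO hp
      have := hn T hT hanti
      simp only [mem_iUnion, Finset.mem_range]
      exact ⟨k, by omega, hU, hp⟩
  · intro N hN x hxY hx
    by_cases hiso : ∃ V ∈ C, x ∈ V ∧ P V = ∅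
    · obtain ⟨V, hV, hxV, hPV⟩ := hiso
      obtain ⟨Z, hZ, hxZ, hZs⟩ := hbase x V hV N hN hxV hx
      have hZ0 : Z ∈ C0 := ⟨hZ, subset_eq_empty (hP.mono Z V (hZs.trans inter_subset_left)) hPV,
        x, hxZ, hxY⟩
      obtain ⟨W, ⟨hW0, hWZ⟩, hmin⟩ := hr.wf.has_min {W | W ∈ C0 ∧ W ⊆ Z} ⟨Z, hZ0, Subset.rfl⟩
      obtain ⟨y, hyW, hyY⟩ := hW0.2.2
      refine ⟨W, Or.inl ⟨hW0, fun W' hW' hsub => hmin W' ⟨hW', hsub.trans hWZ⟩⟩, ?_,
        hWZ.trans (hZs.trans inter_subset_right)⟩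
      exact hsame V hV hPV x ⟨hxV, hxY⟩ y ⟨(hZs (hWZ hyW)).1, hyY⟩ W hW0.1 hyW
    · push Not at hiso
      obtain ⟨n, hn⟩ := hw x
      obtain ⟨k, hk⟩ := local_base hcl hP hn ⟨⟨N, hN, hx⟩, hbase x, hiso, hsep x⟩
      obtain ⟨U, hU, hO, hxU, hUN⟩ := hk N hN hx
      exact ⟨U, Or.inr ⟨k, hU, hO⟩, hxU, hUN⟩

/-- The points whose closure is a minimal nonempty closed set. -/
def core (X : Type*) [TopologicalSpace X] : Set X := {y | ∀ z, y ⤳ z → z ⤳ y}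

theorem exists_pw_open_base_core {X : Type*} [TopologicalSpace X] {B : Set (Set X)}
    (hB : IsTopologicalBasis B) (hr : PointFiniteRank B) :
    ∃ F : Set (Set X), (∀ U ∈ F, IsOpen U) ∧ PW F ∧
      ∀ N, IsOpen N → ∀ x ∈ core X, x ∈ N → ∃ U ∈ F, x ∈ U ∧ U ⊆ N := by
  obtain ⟨_, _⟩ := exists_wellFoundedLT (X × X)
  have hopen : ∀ U ∈ cl B, IsOpen U := by
    intro U hU
    rw [isOpen_iff_forall_mem_open]
    intro x hx
    obtain ⟨D, hD, h1, h2⟩ := hU {x} (finite_singleton x) (singleton_subset_iff.2 hx)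
    exact ⟨D, h2, hB.isOpen hD, h1 rfl⟩
  have hsub : ∀ N, IsOpen N → ∀ x ∈ N, ∃ Z ∈ cl B, x ∈ Z ∧ Z ⊆ N := by
    intro N hN x hx
    obtain ⟨Z, hZ, h1, h2⟩ := hB.exists_subset_of_mem_open hx hN
    exact ⟨Z, subset_cl B hZ, h1, h2⟩
  let P : Set X → Set (X × X) := fun D =>
    {p | p.1 ∈ D ∧ p.2 ∈ D ∧ p.1 ∈ core X ∧ p.2 ∈ core X ∧ ¬ p.1 ⤳ p.2}
  have hP : Markers P := by
    constructor
    · intro D E hDE p hp
      exact ⟨hDE hp.1, hDE hp.2.1, hp.2.2⟩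
    · intro M p hp
      refine ⟨{p.1, p.2}, Set.toFinite _, ?_, by simp, by simp, hp.2.2⟩
      rintro y (rfl | rfl)
      · exact hp.1
      · exact hp.2.1
  obtain ⟨F, hF, hPW, hFb⟩ := exists_pw_base_on (cl_cl B) hP
    (fun x => (hr x).imp fun n hn => hn.wid.cl) (core X)
    (fun x D hD E hE hxD hxE => hsub _ ((hopen D hD).inter (hopen E hE)) x ⟨hxD, hxE⟩)
    (by
      intro x N hN hx p
      by_cases h12 : p.2 ∈ core X ∧ ¬ p.1 ⤳ p.2
      swap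
      · exact ⟨N, hN, hx, Subset.rfl, fun h => h12 h.2.2.2⟩
      by_cases h1 : p.1 ⤳ x
      · have h2 : ¬ p.2 ⤳ x := fun h => h12.2 (h1.trans (h12.1 x h))
        obtain ⟨O, hO, hxO, hpO⟩ := not_specializes_iff_exists_open.1 h2
        obtain ⟨Z, hZ, hxZ, hZs⟩ := hsub _ ((hopen N hN).inter hO) x ⟨hx, hxO⟩
        exact ⟨Z, hZ, hxZ, hZs.trans inter_subset_left, fun h => hpO (hZs h.2.1).2⟩
      · obtain ⟨O, hO, hxO, hpO⟩ := not_specializes_iff_exists_open.1 h1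
        obtain ⟨Z, hZ, hxZ, hZs⟩ := hsub _ ((hopen N hN).inter hO) x ⟨hx, hxO⟩
        exact ⟨Z, hZ, hxZ, hZs.trans inter_subset_left, fun h => hpO (hZs h.1).2⟩)
    (by
      intro V _ hPV x hx y hy W hW hyW
      have hxy : x ⤳ y := by
        by_contra hne
        have : (x, y) ∈ P V := ⟨hx.1, hy.1, hx.2, hy.2, hne⟩
        rw [hPV] at this
        exact this
      exact hxy.mem_open (hopen W hW) hyW)
  refine ⟨F, fun U hU => hopen U (hF hU), hPW, ?_⟩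
  intro N hN x hxc hx
  obtain ⟨Z, hZ, hxZ, hZN⟩ := hsub N hN x hx
  obtain ⟨U, hU, hxU, hUZ⟩ := hFb Z hZ x hxc hxZ
  exact ⟨U, hU, hxU, hUZ.trans hZN⟩

theorem exists_core_of_compact {X : Type*} [TopologicalSpace X] {x : X}
    (h : IsCompact (closure ({x} : Set X))) : ∃ y ∈ core X, x ⤳ y := by
  have : CompactSpace (closure ({x} : Set X)) := isCompact_iff_compactSpace.1 h
  obtain ⟨V, -, ⟨y, hy⟩, hVc, hmin⟩ :=
    (isClosed_univ (X := closure ({x} : Set X))).exists_minimal_nonempty_closed_subset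
      ⟨⟨x, subset_closure rfl⟩, mem_univ _⟩
  have hxy : x ⤳ (y : X) := specializes_iff_mem_closure.2 y.2
  refine ⟨y, fun z hz => ?_, hxy⟩
  let z' : closure ({x} : Set X) := ⟨z, specializes_iff_mem_closure.1 (hxy.trans hz)⟩
  have h1 : y ⤳ z' := (subtype_specializes_iff y z').2 hz
  have h2 : closure {z'} ⊆ V :=
    closure_minimal (singleton_subset_iff.2 (h1.mem_closed hVc hy)) hVc
  have h3 := hmin _ h2 ⟨z', subset_closure rfl⟩ isClosed_closure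
  have h4 : z' ⤳ y := specializes_iff_mem_closure.2 (h3 ▸ hy)
  exact (subtype_specializes_iff z' y).1 h4

theorem metacompact_pi_core {ι : Type*} [Finite ι] {X : ι → Type*} [∀ i, TopologicalSpace (X i)]
    (F : ∀ i, Set (Set (X i))) (hFo : ∀ i, ∀ U ∈ F i, IsOpen U) (hPW : ∀ i, PW (F i))
    (hFb : ∀ i N, IsOpen N → ∀ x ∈ core (X i), x ∈ N → ∃ U ∈ F i, x ∈ U ∧ U ⊆ N)
    (hc : ∀ (x : ∀ i, X i) (i : ι), ∃ y ∈ core (X i), x i ⤳ y) : Metacompact (∀ i, X i) := by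
  intro 𝒰 h𝒰 hcov
  let Small : (∀ i, Set (X i)) → Prop := fun b => (∀ i, b i ∈ F i) ∧ ∃ U ∈ 𝒰, univ.pi b ⊆ U
  have hpwo : ∀ p : ∀ i, X i,
      {b : ∀ i, Set (X i) | Small b ∧ ∀ i, p i ∈ b i}.PartiallyWellOrderedOn
      (fun a b => ∀ i, a i ⊇ b i) := by
    intro p
    refine (Set.PartiallyWellOrderedOn.pi (fun i => hPW i (p i))).mono ?_
    intro b hb i _
    exact ⟨hb.1.1 i, hb.2 i⟩
  refine ⟨(fun b => univ.pi b) '' {b | Maximal Small b}, ?_, ?_, ?_, ?_⟩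
  · rintro V ⟨b, hb, rfl⟩
    exact isOpen_set_pi finite_univ (fun i _ => hFo i _ (hb.prop.1 i))
  · rw [eq_univ_iff_forall]
    intro p
    choose q hq hpq using hc p
    obtain ⟨U, hU, hqU⟩ : q ∈ ⋃₀ 𝒰 := hcov ▸ mem_univ q
    obtain ⟨u, hu, huU⟩ := isOpen_pi_iff'.1 (h𝒰 U hU) q hqU
    choose b hbF hqb hbu using fun i => hFb i (u i) (hu i).1 (q i) (hq i) (hu i).2
    have hb : b ∈ {b : ∀ i, Set (X i) | Small b ∧ ∀ i, p i ∈ b i} :=
      ⟨⟨hbF, U, hU, (pi_mono fun i _ => hbu i).trans huU⟩,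
        fun i => (hpq i).mem_open (hFo i _ (hbF i)) (hqb i)⟩
    have : IsPreorder (∀ i, Set (X i)) (fun a b => ∀ i, a i ⊇ b i) :=
      { refl a i := Subset.rfl
        trans a b c hab hbc i := (hbc i).trans (hab i) }
    obtain ⟨m, hm, hmin⟩ := (wellFoundedOn_iff.1 (hpwo p).wellFoundedOn).has_min _ ⟨b, hb⟩
    refine ⟨univ.pi m, ⟨m, ⟨hm.1, ?_⟩, rfl⟩, fun i _ => hm.2 i⟩
    intro c hc hmc
    have hcm : c ∈ {b : ∀ i, Set (X i) | Small b ∧ ∀ i, p i ∈ b i} :=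
      ⟨hc, fun i => hmc i (hm.2 i)⟩
    by_contra hne
    exact hmin c hcm ⟨⟨fun i => hmc i, hne⟩, hcm, hm⟩
  · rintro V ⟨b, hb, rfl⟩
    exact hb.prop.2
  · intro p
    have hfin : {b : ∀ i, Set (X i) | Maximal Small b ∧ ∀ i, p i ∈ b i}.Finite := by
      refine IsAntichain.finite_of_partiallyWellOrderedOn ?_
        ((hpwo p).mono fun b hb => ⟨hb.1.prop, hb.2⟩)
      intro a ha b hb hne hab
      exact hne (le_antisymm (hb.1.le_of_ge ha.1.prop hab) hab)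
    refine (hfin.image fun b => univ.pi b).subset ?_
    rintro V ⟨⟨b, hb, rfl⟩, hp⟩
    exact ⟨b, ⟨hb, fun i => hp i (mem_univ i)⟩, rfl⟩

theorem Metacompact.isCompact_closure {X : Type*} [TopologicalSpace X] (h : Metacompact X)
    (x : X) : IsCompact (closure ({x} : Set X)) := by
  classical
  refine isCompact_of_finite_subcover ?_
  intro κ U hU hcov
  obtain ⟨𝒱, hVo, hVc, hVr, hVf⟩ := h (insert (closure ({x} : Set X))ᶜ (range U))
    (by
      rintro W (rfl | ⟨i, rfl⟩)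
      · exact isClosed_closure.isOpen_compl
      · exact hU i)
    (by
      rw [eq_univ_iff_forall]
      intro z
      by_cases hz : z ∈ closure ({x} : Set X)
      · obtain ⟨i, hi⟩ := mem_iUnion.1 (hcov hz)
        exact ⟨U i, Or.inr ⟨i, rfl⟩, hi⟩
      · exact ⟨_, Or.inl rfl, hz⟩)
  have h1 : ∀ V : {V | V ∈ 𝒱 ∧ x ∈ V}, ∃ i, (V : Set X) ⊆ U i := by
    rintro ⟨V, hV, hxV⟩
    obtain ⟨W, rfl | ⟨i, rfl⟩, hVW⟩ := hVr V hV
    · exact absurd (subset_closure (s := ({x} : Set X)) rfl) (hVW hxV)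
    · exact ⟨i, hVW⟩
  choose g hg using h1
  have : Finite {V | V ∈ 𝒱 ∧ x ∈ V} := hVf x
  refine ⟨(finite_range g).toFinset, fun z hz => ?_⟩
  obtain ⟨V, hV, hzV⟩ : z ∈ ⋃₀ 𝒱 := hVc ▸ mem_univ z
  have hxV : x ∈ V := (specializes_iff_mem_closure.2 hz).mem_open (hVo V hV) hzV
  exact mem_biUnion (x := g ⟨V, hV, hxV⟩) (by simp) (hg ⟨V, hV, hxV⟩ hzV)

theorem metacompact_pi_iff {ι : Type*} [Finite ι] (X : ι → Type*) [∀ i, TopologicalSpace (X i)]
    (h : ∀ i, ∃ B : Set (Set (X i)), IsTopologicalBasis B ∧ PointFiniteRank B) :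
    Metacompact (∀ i, X i) ↔
      ∀ (x : ∀ i, X i) (i : ι), IsCompact (closure ({x i} : Set (X i))) := by
  constructor
  · intro hm x i
    have h1 := (hm.isCompact_closure x).image (continuous_apply i)
    have h2 : closure ({x} : Set (∀ i, X i)) = univ.pi fun j => closure {x j} := by
      rw [← univ_pi_singleton, closure_pi_set]
    have h3 : (univ.pi fun j => closure ({x j} : Set (X j))).Nonempty :=
      ⟨x, fun j _ => subset_closure rfl⟩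
    rw [h2] at h1
    exact (eval_image_univ_pi (i := i) h3) ▸ h1
  · intro hc
    choose B hB hr using h
    choose F hFo hPW hFb using fun i => exists_pw_open_base_core (hB i) (hr i)
    exact metacompact_pi_core F hFo hPW hFb (fun x i => exists_core_of_compact (hc x i))

end Pool.Agent.Lib.MP_bc8021_gt
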