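import Pool.Agent.Lib.MP_bc8021_gt.Comb

/-!
Level functions and the refinement operator.
-/

open Set

namespace Pool.Agent.Lib.MP_bc8021_gt

variable {X : Type*} {I : Type*} [LinearOrder I]

/-- A monotone and finitary assignment of markers to sets. -/
structure Markers (P : Set X → Set I) : Prop where
  mono : ∀ D E, D ⊆ E → P D ⊆ P E
  fin : ∀ M, ∀ i ∈ P M, ∃ S : Set X, S.Finite ∧ S ⊆ M ∧ i ∈ P S

lemma Markers.anti {P : Set X → Set I} (hP : Markers P) {D E : Set X} {i j : I} (hDE : D ⊆ E)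
    (hi : IsLeast (P D) i) (hj : IsLeast (P E) j) : j ≤ i :=
  hj.2 (hP.mono D E hDE hi.1)

lemma Markers.cl {P : Set X → Set I} (hP : Markers P) {N : Set (Set X)} {i : I}
    (hN : ∀ D ∈ N, IsLeast (P D) i) {M : Set X} (hM : M ∈ cl N) : IsLeast (P M) i := by
  constructor
  · obtain ⟨D, hD, -, h⟩ := hM ∅ finite_empty (empty_subset _)
    exact hP.mono D M h (hN D hD).1
  · intro j hj
    obtain ⟨S, hS, hSM, hjS⟩ := hP.fin M j hj
    obtain ⟨D, hD, h, -⟩ := hM S hS hSM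
    exact (hN D hD).2 (hP.mono S D h hjS)

/-- The starting family: members maximal among those of their level. -/
def W0 (C : Set (Set X)) (P : Set X → Set I) : Set (Set X) :=
  {V | ∃ i, Maximal (fun Z => Z ∈ C ∧ IsLeast (P Z) i) V}

/-- Members of level i not containing U. -/
def Nb (C : Set (Set X)) (P : Set X → Set I) (i : I) (U : Set X) : Set (Set X) :=
  {D | D ∈ C ∧ IsLeast (P D) i ∧ ¬ U ⊆ D}

/-- The refinement operator. -/
def step (C : Set (Set X)) (P : Set X → Set I) (W : Set (Set X)) : Set (Set X) :=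
  {Z | ∃ i, ∃ U ∈ W, ∃ M, Maximal (· ∈ cl (Nb C P i U)) M ∧
    Maximal (fun Y => Y ∈ C ∧ Y ⊆ M ∩ U) Z}

/-- The iterated families. -/
def Wk (C : Set (Set X)) (P : Set X → Set I) : ℕ → Set (Set X)
  | 0 => W0 C P
  | k + 1 => step C P (Wk C P k)

lemma Wk_subset (C : Set (Set X)) (P : Set X → Set I) (k : ℕ) : Wk C P k ⊆ C := by
  cases k with
  | zero => rintro V ⟨i, hV⟩; exact hV.prop.1
  | succ k => rintro Z ⟨i, U, hU, M, hM, hZ⟩; exact hZ.prop.1

lemma exists_W0 {C : Set (Set X)} {P : Set X → Set I} (hcl : cl C ⊆ C) (hP : Markers P)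
    {D : Set X} {i : I} (hD : D ∈ C) (hi : IsLeast (P D) i) :
    ∃ V, D ⊆ V ∧ Maximal (fun Z => Z ∈ C ∧ IsLeast (P Z) i) V := by
  refine zorn_subset_nonempty {Z | Z ∈ C ∧ IsLeast (P Z) i} ?_ D ⟨hD, hi⟩
  intro c hc hch hne
  refine ⟨⋃₀ c, ⟨hcl (sUnion_mem_cl (fun s hs => (hc hs).1) hch hne), ?_⟩,
    fun s hs => subset_sUnion_of_mem hs⟩
  exact hP.cl (fun s hs => (hc hs).2) (sUnion_mem_cl Subset.rfl hch hne)

section WF
variable [WellFoundedLT I]

lemma exists_mono_subseq (i : ℕ → I) : ∃ g : ℕ ↪o ℕ, ∀ m n, m ≤ n → i (g m) ≤ i (g n) :=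
  (Set.IsPWO.of_linearOrder (univ : Set I)).exists_monotone_subseq (fun n => mem_univ (i n))

lemma pw_W0 {C : Set (Set X)} {P : Set X → Set I} (hw : ∀ x, ∃ n, Wid C x n) (hP : Markers P) :
    PW (W0 C P) := by
  refine pw_of_no_increasing hw (Wk_subset C P 0) ?_
  intro p f hf hinc hbad
  choose i hi using fun j => (hf j).1
  obtain ⟨g, hg⟩ := exists_mono_subseq i
  have hlt : g 0 < g 1 := g.strictMono zero_lt_one
  have h1 : i (g 1) ≤ i (g 0) := hP.anti (hinc _ _ hlt) (hi _).prop.2 (hi _).prop.2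
  have h2 : i (g 0) = i (g 1) := le_antisymm (hg 0 1 zero_le_one) h1
  exact hbad _ _ hlt ((hi (g 0)).le_of_ge (h2 ▸ (hi (g 1)).prop) (hinc _ _ hlt))

lemma pw_step {C W : Set (Set X)} {P : Set X → Set I} (hcl : cl C ⊆ C)
    (hw : ∀ x, ∃ n, Wid C x n) (hP : Markers P) (hW : PW W) : PW (step C P W) := by
  refine pw_of_no_increasing hw (by rintro Z ⟨i, U, hU, M, hM, hZ⟩; exact hZ.prop.1) ?_
  intro p f hf hinc hbad
  choose i U hU M hM hZ using fun j => (hf j).1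
  have hpU : ∀ j, U j ∈ {U | U ∈ W ∧ p ∈ U} := fun j => ⟨hU j, ((hZ j).prop.2 (hf j).2).2⟩
  obtain ⟨g1, hg1⟩ := (hW p).exists_monotone_subseq hpU
  obtain ⟨g2, hg2⟩ := exists_mono_subseq (fun j => i (g1 j))
  let g : ℕ → ℕ := fun j => g1 (g2 j)
  have hg : StrictMono g := g1.strictMono.comp g2.strictMono
  have hUg : ∀ j k, j < k → U (g k) ⊆ U (g j) :=
    fun j k hjk => hg1 _ _ (g2.strictMono hjk).le
  have hMC : ∀ j, M j ∈ C := fun j => hcl (cl_mono (fun D hD => hD.1) (hM j).prop)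
  have hMl : ∀ j, IsLeast (P (M j)) (i j) := fun j => hP.cl (fun D hD => hD.2.1) (hM j).prop
  have hMbad : ∀ j k, j < k → ¬ M (g k) ⊆ M (g j) := by
    intro j k hjk hsub
    refine hbad _ _ (hg hjk) ((hZ (g j)).le_of_ge ⟨(hZ (g k)).prop.1, ?_⟩ (hinc _ _ (hg hjk)))
    intro y hy
    have := (hZ (g k)).prop.2 hy
    exact ⟨hsub this.1, hUg j k hjk this.2⟩
  obtain ⟨n, hn⟩ := hw p
  obtain ⟨j, k, hjk, hsub⟩ := hn.exists_subset (fun j => M (g j))
    (fun j => ⟨hMC _, ((hZ _).prop.2 (hf _).2).1⟩) hMbad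
  have h1 : i (g k) ≤ i (g j) := hP.anti hsub (hMl _) (hMl _)
  have h2 : i (g j) = i (g k) := le_antisymm (hg2 j k hjk.le) h1
  refine hMbad j k hjk ((hM (g j)).le_of_ge ?_ hsub)
  refine cl_mono ?_ (hM (g k)).prop
  intro D hD
  exact ⟨hD.1, h2 ▸ hD.2.1, fun h => hD.2.2 ((hUg j k hjk).trans h)⟩

lemma pw_Wk {C : Set (Set X)} {P : Set X → Set I} (hcl : cl C ⊆ C)
    (hw : ∀ x, ∃ n, Wid C x n) (hP : Markers P) (k : ℕ) : PW (Wk C P k) := by
  induction k with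
  | zero => exact pw_W0 hw hP
  | succ k ih => exact pw_step hcl hw hP ih

end WF

/-- A level is bad for a thread. -/
def Bad (C : Set (Set X)) (P : Set X → Set I) (Δ : Set (Set X)) (i : I) : Prop :=
  ∀ U ∈ Δ, ∃ U' ∈ Δ, ∀ S : Set X, S.Finite → S ⊆ U' →
    ∃ D ∈ C, IsLeast (P D) i ∧ S ⊆ D ∧ ¬ U ⊆ D

lemma bad_antichain {C : Set (Set X)} {P : Set X → Set I} (hP : Markers P) {x : X}
    {Δ : Set (Set X)} (hT : Thread C x Δ) (L : Finset I) :
    (∀ i ∈ L, Bad C P Δ i) → ∀ U ∈ Δ, ∃ T : Finset (Set X), T.card = L.card ∧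
      IsAntichain (· ⊆ ·) (T : Set (Set X)) ∧
      ∀ D ∈ T, D ∈ C ∧ x ∈ D ∧ ¬ U ⊆ D ∧ ∃ i ∈ L, IsLeast (P D) i := by
  classical
  have : Nonempty X := ⟨x⟩
  induction L using Finset.induction_on_max with
  | empty => intro _ U _; exact ⟨∅, rfl, by simp [IsAntichain], by simp⟩
  | insert m L hm ih =>
    intro hL U hU
    obtain ⟨U1, hU1, hS⟩ := hL m (Finset.mem_insert_self _ _) U hU
    obtain ⟨U2, hU2, h21, h2U⟩ := hT.dir U1 hU1 U hU
    obtain ⟨T, hcard, hanti, hTp⟩ := ih (fun i hi => hL i (Finset.mem_insert_of_mem hi)) U2 hU2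
    have hz : ∀ D ∈ T, ∃ z, z ∈ U2 ∧ z ∉ D := fun D hD => not_subset.1 (hTp D hD).2.2.1
    choose! z hz1 hz2 using hz
    obtain ⟨E, hEC, hEm, hSE, hUE⟩ := hS (insert x (z '' (T : Set (Set X))))
      ((T.finite_toSet.image _).insert x) (by
        rintro y (rfl | ⟨D, hD, rfl⟩)
        · exact (hT.sub U1 hU1).2
        · exact h21 (hz1 D hD))
    have hED : ∀ D ∈ T, ¬ E ⊆ D := fun D hD hsub => hz2 D hD (hsub (hSE (Or.inr ⟨D, hD, rfl⟩)))
    have hDE : ∀ D ∈ T, ¬ D ⊆ E := by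
      intro D hD hsub
      obtain ⟨i, hi, hDi⟩ := (hTp D hD).2.2.2
      exact absurd (hP.anti hsub hDi hEm) (not_le.2 (hm i hi))
    have hET : E ∉ T := fun hmem => hED E hmem Subset.rfl
    have hmL : m ∉ L := fun hmem => lt_irrefl _ (hm m hmem)
    refine ⟨insert E T, by rw [Finset.card_insert_of_notMem hET, Finset.card_insert_of_notMem hmL,
      hcard], ?_, ?_⟩
    · rw [Finset.coe_insert]
      exact hanti.insert (fun D hD _ => hDE D hD) (fun D hD _ => hED D hD)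
    · intro D hD
      rcases Finset.mem_insert.1 hD with rfl | hD
      · exact ⟨hEC, hSE (Or.inl rfl), hUE, m, Finset.mem_insert_self _ _, hEm⟩
      · obtain ⟨h1, h2, h3, i, hi, h4⟩ := hTp D hD
        exact ⟨h1, h2, fun h => h3 (h2U.trans h), i, Finset.mem_insert_of_mem hi, h4⟩

lemma bad_finite {C : Set (Set X)} {P : Set X → Set I} (hP : Markers P) {x : X} {n : ℕ}
    (hw : Wid C x n) {Δ : Set (Set X)} (hT : Thread C x Δ) : {i | Bad C P Δ i}.Finite := by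
  by_contra hinf
  obtain ⟨L, hL, hcard⟩ := Set.Infinite.exists_subset_card_eq hinf (n + 1)
  obtain ⟨U, hU⟩ := hT.ne
  obtain ⟨T, hT1, hT2, hT3⟩ := bad_antichain hP hT L (fun i hi => hL hi) U hU
  have := hw T (fun D hD => ⟨(hT3 D hD).1, (hT3 D hD).2.1⟩) hT2
  omega

end Pool.Agent.Lib.MP_bc8021_gt
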