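import Pool.Agent.Lib.MP_bc8021_gt.Levels

/-!
The well-quasi-ordered base and the product theorem.
-/

open Set

namespace Pool.Agent.Lib.MP_bc8021_gt

variable {X : Type*} {I : Type*} [LinearOrder I] [WellFoundedLT I]

lemma exists_isLeast {s : Set I} (hs : s.Nonempty) : ∃ i, IsLeast s i :=
  ⟨wellFounded_lt.min s hs, wellFounded_lt.min_mem s hs,
    fun _ hj => not_lt.1 (wellFounded_lt.not_lt_min s hj)⟩

/-- At the point, every member carries a marker and markers can be removed by shrinking. -/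
structure Lim (C : Set (Set X)) (P : Set X → Set I) (x : X) : Prop where
  ex : ∃ N ∈ C, x ∈ N
  base : ∀ D ∈ C, ∀ E ∈ C, x ∈ D → x ∈ E → ∃ Z ∈ C, x ∈ Z ∧ Z ⊆ D ∩ E
  big : ∀ N ∈ C, x ∈ N → (P N).Nonempty
  sep : ∀ N ∈ C, x ∈ N → ∀ i, ∃ E ∈ C, x ∈ E ∧ E ⊆ N ∧ i ∉ P E

omit [LinearOrder I] [WellFoundedLT I] in
lemma Lim.deeper {C : Set (Set X)} {P : Set X → Set I} (hP : Markers P) {x : X} (h : Lim C P x)
    (L : Set I) (hL : L.Finite) : ∀ N ∈ C, x ∈ N →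
      ∃ E ∈ C, x ∈ E ∧ E ⊆ N ∧ ∀ i ∈ L, i ∉ P E := by
  induction L, hL using Set.Finite.induction_on with
  | empty => intro N hN hx; exact ⟨N, hN, hx, Subset.rfl, by simp⟩
  | @insert a L _ _ ih =>
    intro N hN hx
    obtain ⟨E, hE, hxE, hEN, hEL⟩ := ih N hN hx
    obtain ⟨E', hE', hxE', hE'E, ha⟩ := h.sep E hE hxE a
    refine ⟨E', hE', hxE', hE'E.trans hEN, ?_⟩
    rintro i (rfl | hi)
    · exact ha
    · exact fun hmem => hEL i hi (hP.mono _ _ hE'E hmem)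

lemma first_thread {C : Set (Set X)} {P : Set X → Set I} (hcl : cl C ⊆ C) (hP : Markers P)
    {x : X} {n : ℕ} (hw : Wid C x n) (h : Lim C P x) :
    ∃ Δ ⊆ Wk C P 0, Thread C x Δ := by
  let A : I → Set (Set X) := fun i => {V | V ∈ W0 C P ∧ x ∈ V ∧ ∃ j, i ≤ j ∧ IsLeast (P V) j}
  let D : Set I := {i | ∃ N ∈ C, x ∈ N ∧ IsLeast (P N) i}
  have hAm : ∀ i j, i ≤ j → A j ⊆ A i := by
    rintro i j hij V ⟨h1, h2, k, h3, h4⟩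
    exact ⟨h1, h2, k, hij.trans h3, h4⟩
  refine (extract hw D A ?_ ?_ ?_ ?_ ?_).elim fun Δ ⟨hT, h1, _⟩ => ?_
  rotate_right
  · refine ⟨Δ, fun W hW => ?_, hT⟩
    obtain ⟨d, -, hd⟩ := h1 W hW
    exact hd.1
  · obtain ⟨N, hN, hx⟩ := h.ex
    obtain ⟨i, hi⟩ := exists_isLeast (h.big N hN hx)
    exact ⟨i, N, hN, hx, hi⟩
  · intro d hd d' hd'
    rcases le_total d d' with hle | hle
    · exact ⟨d', hd', hAm _ _ hle, Subset.rfl⟩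
    · exact ⟨d, hd, Subset.rfl, hAm _ _ hle⟩
  · rintro i ⟨N, hN, hx, hi⟩
    obtain ⟨V, hNV, hV⟩ := exists_W0 hcl hP hN hi
    exact ⟨V, ⟨i, hV⟩, hNV hx, i, le_rfl, hV.prop.2⟩
  · intro d _ W hW
    exact ⟨Wk_subset C P 0 hW.1, hW.2.1⟩
  · intro N hN hx
    obtain ⟨i, hi⟩ := exists_isLeast (h.big N hN hx)
    obtain ⟨E, hE, hxE, hEN, hiE⟩ := h.sep N hN hx i
    obtain ⟨j, hj⟩ := exists_isLeast (h.big E hE hxE)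
    refine ⟨j, ⟨E, hE, hxE, hj⟩, ?_⟩
    rintro V ⟨-, -, k, hjk, hk⟩ hNV
    have h1 : k ≤ i := hP.anti hNV hi hk
    have h2 : i ≤ j := hP.anti hEN hj hi
    have h3 : i = j := le_antisymm h2 (hjk.trans h1)
    exact hiE (h3 ▸ hj.1)

lemma next_member {C W : Set (Set X)} {P : Set X → Set I} (hcl : cl C ⊆ C) (hP : Markers P)
    {x : X} {n : ℕ} (hw : Wid C x n) (h : Lim C P x) {Δ : Set (Set X)} (hΔW : Δ ⊆ W)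
    (hT : Thread C x Δ) {B0 : Set X} (hB0 : B0 ∈ C) (hxB0 : x ∈ B0)
    (hnf : ∀ U ∈ Δ, ¬ U ⊆ B0) {U : Set X} (hU : U ∈ Δ) :
    ∃ Z ∈ step C P W, x ∈ Z ∧ Z ⊆ U ∧ ∀ U' ∈ Δ, ¬ U' ⊆ Z := by
  obtain ⟨B, hB, hxB, hBB0, hBL⟩ := h.deeper hP _ (bad_finite hP hw hT) B0 hB0 hxB0
  obtain ⟨i, hi⟩ := exists_isLeast (h.big B hB hxB)
  have hgood : ¬ Bad C P Δ i := fun hbad => hBL i hbad hi.1
  unfold Bad at hgood
  push Not at hgood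
  obtain ⟨U1, hU1, hU1p⟩ := hgood
  obtain ⟨U2, hU2, h2U, h21⟩ := hT.dir U hU U1 hU1
  have hBN : B ∈ Nb C P i U2 := ⟨hB, hi, fun hsub => hnf U2 hU2 (hsub.trans hBB0)⟩
  obtain ⟨M, hBM, hM⟩ := exists_maximal_cl (subset_cl _ hBN)
  have hMC : M ∈ C := hcl (cl_mono (fun D hD => hD.1) hM.prop)
  obtain ⟨Y, hY, hxY, hYsub⟩ := h.base M hMC U2 (hT.sub U2 hU2).1 (hBM hxB) (hT.sub U2 hU2).2
  obtain ⟨Z, hYZ, hZ⟩ := exists_maximal_sub hcl (M ∩ U2) hY hYsub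
  refine ⟨Z, ⟨i, U2, hΔW hU2, M, hM, hZ⟩, hYZ hxY,
    (hZ.prop.2.trans inter_subset_right).trans h2U, ?_⟩
  intro U' hU' hsub
  obtain ⟨S, hS, hSU', hSp⟩ := hU1p U' hU'
  obtain ⟨D, hD, hSD, -⟩ := hM.prop S hS
    (hSU'.trans (hsub.trans (hZ.prop.2.trans inter_subset_left)))
  exact hD.2.2 (h21.trans (hSp D hD.1 hD.2.1 hSD))

lemma next_thread {C W : Set (Set X)} {P : Set X → Set I} (hcl : cl C ⊆ C) (hP : Markers P)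
    {x : X} {n : ℕ} (hw : Wid C x n) (h : Lim C P x) {Δ : Set (Set X)} (hΔW : Δ ⊆ W)
    (hT : Thread C x Δ) {B0 : Set X} (hB0 : B0 ∈ C) (hxB0 : x ∈ B0)
    (hnf : ∀ U ∈ Δ, ¬ U ⊆ B0) :
    ∃ Δ' ⊆ step C P W, Thread C x Δ' ∧ (∀ U ∈ Δ, ∃ Z ∈ Δ', Z ⊆ U) ∧
      ∀ Z ∈ Δ', ∀ U ∈ Δ, ¬ U ⊆ Z := by
  let A : Set X → Set (Set X) :=
    fun U => {Z | Z ∈ step C P W ∧ x ∈ Z ∧ Z ⊆ U ∧ ∀ U' ∈ Δ, ¬ U' ⊆ Z}
  have hAm : ∀ U V, U ⊆ V → A U ⊆ A V :=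
    fun U V hUV Z hZ => ⟨hZ.1, hZ.2.1, hZ.2.2.1.trans hUV, hZ.2.2.2⟩
  refine (extract hw Δ A hT.ne ?_ ?_ ?_ ?_).elim fun Δ' ⟨hT', h1, h2⟩ => ?_
  rotate_right
  · refine ⟨Δ', fun Z hZ => ?_, hT', fun U hU => ?_, fun Z hZ => ?_⟩
    · obtain ⟨d, -, hd⟩ := h1 Z hZ
      exact hd.1
    · obtain ⟨Z, hZ, hZA⟩ := h2 U hU
      exact ⟨Z, hZ, hZA.2.2.1⟩
    · obtain ⟨d, -, hd⟩ := h1 Z hZ
      exact hd.2.2.2
  · intro U hU V hV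
    obtain ⟨Y, hY, hYU, hYV⟩ := hT.dir U hU V hV
    exact ⟨Y, hY, hAm _ _ hYU, hAm _ _ hYV⟩
  · intro U hU
    obtain ⟨Z, hZ⟩ := next_member hcl hP hw h hΔW hT hB0 hxB0 hnf hU
    exact ⟨Z, hZ⟩
  · rintro U - Z ⟨⟨i, U', hU', M, hM, hZ⟩, hx, -⟩
    exact ⟨hZ.prop.1, hx⟩
  · intro N hN hx
    obtain ⟨U, hU, hNU⟩ := hT.deg N hN hx
    exact ⟨U, hU, fun Z hZ hsub => hNU (hsub.trans hZ.2.2.1)⟩

/-- Points lying in all members of some antichain of size k. -/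
def Ok (C : Set (Set X)) (k : ℕ) : Set X :=
  {y | ∃ T : Finset (Set X), T.card = k ∧ IsAntichain (· ⊆ ·) (T : Set (Set X)) ∧
    ∀ Z ∈ T, Z ∈ C ∧ y ∈ Z}

lemma local_base {C : Set (Set X)} {P : Set X → Set I} (hcl : cl C ⊆ C) (hP : Markers P)
    {x : X} {n : ℕ} (hw : Wid C x n) (h : Lim C P x) :
    ∃ k, ∀ N ∈ C, x ∈ N → ∃ U ∈ Wk C P k, U ⊆ Ok C k ∧ x ∈ U ∧ U ⊆ N := by
  classical
  by_contra hcon
  push Not at hcon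
  have main : ∀ k, ∃ Δ ⊆ Wk C P k, Thread C x Δ ∧ Depth C x Δ k := by
    intro k
    induction k with
    | zero =>
      obtain ⟨Δ, h1, h2⟩ := first_thread hcl hP hw h
      exact ⟨Δ, h1, h2, depth_zero _ _ _⟩
    | succ k ih =>
      obtain ⟨Δ, hΔ, hT, hD⟩ := ih
      obtain ⟨N, hN, hxN, hNp⟩ := hcon k
      obtain ⟨T, hcard, hanti, hTp⟩ := hD ∅ (by simp)
      have h1 : ∀ Z ∈ T, ∃ U ∈ Δ, U ⊆ Z := fun Z hZ => (hTp Z hZ).2.1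
      choose! u hu1 hu2 using h1
      obtain ⟨V, hV, hVT⟩ := hT.finset_below T u hu1
      have hnf : ∀ U ∈ Δ, ¬ U ⊆ N := by
        intro U hU hsub
        obtain ⟨Y, hY, hYU, hYV⟩ := hT.dir U hU V hV
        refine hNp Y (hΔ hY) ?_ (hT.sub Y hY).2 (hYU.trans hsub)
        intro y hy
        exact ⟨T, hcard, hanti, fun Z hZ => ⟨(hTp Z hZ).1, hu2 Z hZ (hVT Z hZ (hYV hy))⟩⟩
      obtain ⟨Δ', h1, h2, h3, h4⟩ := next_thread hcl hP hw h hΔ hT hN hxN hnf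
      exact ⟨Δ', h1, h2, depth_succ hD h2 h3 h4⟩
  obtain ⟨Δ, -, hT, hD⟩ := main (n + 1)
  obtain ⟨T, hcard, hanti, hTp⟩ := hD ∅ (by simp)
  have := hw T (fun Z hZ => ⟨(hTp Z hZ).1, by
    obtain ⟨U, hU, hUZ⟩ := (hTp Z hZ).2.1
    exact hUZ (hT.sub U hU).2⟩) hanti
  omega

theorem exists_pw_base {C : Set (Set X)} {P : Set X → Set I} (hcl : cl C ⊆ C) (hP : Markers P)
    (hw : ∀ x, ∃ n, Wid C x n)
    (hbase : ∀ x, ∀ D ∈ C, ∀ E ∈ C, x ∈ D → x ∈ E → ∃ Z ∈ C, x ∈ Z ∧ Z ⊆ D ∩ E)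
    (hsep : ∀ x, ∀ N ∈ C, x ∈ N → ∀ i, ∃ E ∈ C, x ∈ E ∧ E ⊆ N ∧ i ∉ P E)
    (hsmall : ∀ V ∈ C, P V = ∅ → ∀ x ∈ V, ∀ N ∈ C, x ∈ N → V ⊆ N) :
    ∃ F ⊆ C, PW F ∧ ∀ N ∈ C, ∀ x ∈ N, ∃ U ∈ F, x ∈ U ∧ U ⊆ N := by
  refine ⟨{V | V ∈ C ∧ P V = ∅} ∪ {U | ∃ k, U ∈ Wk C P k ∧ U ⊆ Ok C k}, ?_, ?_, ?_⟩
  · rintro U (hU | ⟨k, hU, -⟩)
    · exact hU.1
    · exact Wk_subset C P k hU
  · intro p
    obtain ⟨n, hn⟩ := hw p
    have h1 : {V | (V ∈ C ∧ P V = ∅) ∧ p ∈ V}.PartiallyWellOrderedOn (· ⊇ ·) := by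
      refine Set.Subsingleton.partiallyWellOrderedOn ?_
      intro V hV V' hV'
      exact Subset.antisymm (hsmall V hV.1.1 hV.1.2 p hV.2 V' hV'.1.1 hV'.2)
        (hsmall V' hV'.1.1 hV'.1.2 p hV'.2 V hV.1.1 hV.2)
    have h2 : (⋃ k ∈ Finset.range (n + 1), {U | U ∈ Wk C P k ∧ p ∈ U}).PartiallyWellOrderedOn
        (· ⊇ ·) := by
      rw [Finset.partiallyWellOrderedOn_bUnion]
      intro k _
      exact pw_Wk hcl hw hP k p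
    refine (h1.union h2).mono ?_
    rintro U ⟨hU | ⟨k, hU, hO⟩, hp⟩
    · exact Or.inl ⟨hU, hp⟩
    · right
      obtain ⟨T, hcard, hanti, hT⟩ := hO hp
      have := hn T hT hanti
      simp only [mem_iUnion, Finset.mem_range]
      exact ⟨k, by omega, hU, hp⟩
  · intro N hN x hx
    by_cases hiso : ∃ V ∈ C, x ∈ V ∧ P V = ∅
    · obtain ⟨V, hV, hxV, hPV⟩ := hiso
      exact ⟨V, Or.inl ⟨hV, hPV⟩, hxV, hsmall V hV hPV x hxV N hN hx⟩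
    · push Not at hiso
      obtain ⟨n, hn⟩ := hw x
      obtain ⟨k, hk⟩ := local_base hcl hP hn ⟨⟨N, hN, hx⟩, hbase x, hiso, hsep x⟩
      obtain ⟨U, hU, hO, hxU, hUN⟩ := hk N hN hx
      exact ⟨U, Or.inr ⟨k, hU, hO⟩, hxU, hUN⟩

end Pool.Agent.Lib.MP_bc8021_gt
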