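import Mathlib

/-!
The combinatorial core of the counterexample for infinitely many factors.
Points of the factor are sequences of Booleans; the eventually false ones are the rational points.
-/

open Set Filter Topology

namespace Pool.Agent.Lib.MP_bc8021_gt

/-- Eventually false sequences. -/
def Rat0 (x : ℕ → Bool) : Prop := ∃ n, ∀ t, n ≤ t → x t = false

/-- The basic neighbourhood of radius R of a point of the Michael line. -/
def Near (z : ℕ → Bool) (R : ℕ) (x : ℕ → Bool) : Prop :=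
  (∀ t < R, x t = z t) ∧ (¬ Rat0 z → x = z)

/-- The basic neighbourhood of depth R of a point of the countable power. -/
def Box (z : ℕ → ℕ → Bool) (R : ℕ) (x : ℕ → ℕ → Bool) : Prop := ∀ i < R, Near (z i) R (x i)

lemma Box.mono {z x : ℕ → ℕ → Bool} {R R' : ℕ} (h : R ≤ R') (hx : Box z R' x) : Box z R x :=
  fun i hi => ⟨fun t ht => (hx i (by omega)).1 t (by omega), (hx i (by omega)).2⟩

/-- The window condition. -/
def Code (z : ℕ → ℕ → Bool) (H : ℕ) : Prop :=
  ∀ j < H, z 0 j = true → (∀ t, j < t → t ≤ H → z 0 t = false) →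
    ∃ t, H < t ∧ z (j + 1) t = true ∧ ∀ s ≤ t, z (H + 1) s = true

/-- The sets whose closures decrease to the empty set. -/
def EE (m : ℕ) : Set (ℕ → ℕ → Bool) :=
  {z | (∀ i < m, Rat0 (z i)) ∧ z 0 0 = true ∧ ∀ H, Code z H}

lemma EE_anti {m n : ℕ} (h : m ≤ n) : EE n ⊆ EE m :=
  fun _ hz => ⟨fun i hi => hz.1 i (by omega), hz.2⟩

/-- Every point has a box that misses one of the sets. -/
lemma exists_box_disjoint (x : ℕ → ℕ → Bool) : ∃ m R, ∀ z, Box x R z → z ∉ EE m := by
  by_cases hx : ∀ i, Rat0 (x i)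
  swap
  · push Not at hx
    obtain ⟨i, hi⟩ := hx
    refine ⟨i + 1, i + 1, fun z hz hE => hi ?_⟩
    rw [← (hz i (by omega)).2 hi]
    exact hE.1 i (by omega)
  by_cases h0 : x 0 0 = true
  swap
  · exact ⟨0, 1, fun z hz hE => h0 (((hz 0 (by omega)).1 0 (by omega)).symm.trans hE.2.1)⟩
  obtain ⟨n, hn⟩ := hx 0
  have hjn : 0 < n := by
    by_contra h
    have := hn 0 (by omega)
    simp [h0] at this
  set j := Nat.findGreatest (fun t => x 0 t = true) n with hj
  have hj1 : x 0 j = true := Nat.findGreatest_spec (P := fun t => x 0 t = true) (Nat.zero_le n) h0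
  have hj2 : ∀ t, j < t → x 0 t = false := by
    intro t ht
    by_cases htn : t ≤ n
    · have := Nat.findGreatest_is_greatest (P := fun t => x 0 t = true) ht htn
      simpa using this
    · exact hn t (by omega)
  obtain ⟨a, ha⟩ := hx (j + 1)
  obtain ⟨b, hb⟩ := hx (j + a + 1 + 1)
  refine ⟨0, j + a + b + 3, fun z hz hE => ?_⟩
  obtain ⟨t, ht1, ht2, ht3⟩ := hE.2.2 (j + a + 1) j (by omega)
    (((hz 0 (by omega)).1 j (by omega)).trans hj1)
    (fun t h1 h2 => ((hz 0 (by omega)).1 t (by omega)).trans (hj2 t h1))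
  have hb1 : z (j + a + 1 + 1) b = false :=
    ((hz _ (by omega)).1 b (by omega)).trans (hb b le_rfl)
  have htb : t < b := by
    by_contra h
    have := ht3 b (by omega)
    simp [hb1] at this
  have := ((hz (j + 1) (by omega)).1 t (by omega)).trans (ha t (by omega))
  simp [ht2] at this

/-- Truncation. -/
def tr (L : ℕ) (v : ℕ → ℕ → Bool) : ℕ → ℕ → Bool :=
  fun i t => if i ≤ L ∧ t < L then v i t else false

lemma finite_range_tr (L : ℕ) : (range (tr L)).Finite := by
  refine (finite_range (fun w : Fin (L + 1) → Fin L → Bool => fun i t =>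
    if h : i ≤ L ∧ t < L then w ⟨i, by omega⟩ ⟨t, h.2⟩ else false)).subset ?_
  rintro _ ⟨v, rfl⟩
  refine ⟨fun i t => v i t, ?_⟩
  funext i t
  by_cases h : i ≤ L ∧ t < L <;> simp [tr, h]

/-- The point built from a template, a new pointer and a new irrational. -/
def mk (v : ℕ → ℕ → Bool) (k : ℕ) (p : ℕ → Bool) : ℕ → ℕ → Bool
  | 0 => fun t => if t < k then v 0 t else decide (t = k)
  | n + 1 => if n < k then v (n + 1) else if n = k then p else
      fun s => decide (∀ t < s, n < t → p t = false)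

lemma mk_lt (v : ℕ → ℕ → Bool) {k n : ℕ} (p : ℕ → Bool) (h : n < k) :
    mk v k p (n + 1) = v (n + 1) := by simp [mk, h]

lemma mk_eq (v : ℕ → ℕ → Bool) (k : ℕ) (p : ℕ → Bool) : mk v k p (k + 1) = p := by simp [mk]

lemma mk_gt (v : ℕ → ℕ → Bool) {k n : ℕ} (p : ℕ → Bool) (h : k < n) :
    mk v k p (n + 1) = fun s => decide (∀ t < s, n < t → p t = false) := by
  simp [mk, h.ne', not_lt.2 h.le]

lemma mk_zero (v : ℕ → ℕ → Bool) (k : ℕ) (p : ℕ → Bool) (t : ℕ) :
    mk v k p 0 t = if t < k then v 0 t else decide (t = k) := rfl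

lemma code_mk {v : ℕ → ℕ → Bool} {k : ℕ} {p : ℕ → Bool} (hp : ¬ Rat0 p)
    (hv : ∀ H < k, Code v H) (H : ℕ) : Code (mk v k p) H := by
  classical
  intro j hj h1 h2
  rcases lt_trichotomy H k with hH | hH | hH
  · rw [mk_lt v p hH, mk_lt v p (hj.trans hH)]
    refine hv H hH j hj ?_ ?_
    · simpa [mk_zero, hj.trans hH] using h1
    · intro t a b
      simpa [mk_zero, b.trans_lt hH] using h2 t a b
  · have := h2 H hj le_rfl
    simp [mk_zero, hH] at this
  · have hjk : j = k := by
      rcases lt_trichotomy j k with h | h | h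
      · have := h2 k h hH.le
        simp [mk_zero] at this
      · exact h
      · simp [mk_zero, not_lt.2 h.le, h.ne'] at h1
    subst hjk
    rw [mk_eq, mk_gt v p hH]
    have hex : ∃ t, H < t ∧ p t = true := by
      by_contra hcon
      push Not at hcon
      exact hp ⟨H + 1, fun t ht => by simpa using hcon t (by omega)⟩
    refine ⟨Nat.find hex, (Nat.find_spec hex).1, (Nat.find_spec hex).2, fun s hs => ?_⟩
    simp only [decide_eq_true_eq]
    intro t ht hHt
    have := Nat.find_min hex (ht.trans_le hs)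
    simpa [hHt] using this

lemma code_tr {v : ℕ → ℕ → Bool} (H : ℕ) (hv : Code v H) : ∀ᶠ L in atTop, Code (tr L v) H := by
  have h1 : ∀ j < H, ∀ᶠ L in atTop, v 0 j = true → (∀ t, j < t → t ≤ H → v 0 t = false) →
      ∃ t, H < t ∧ tr L v (j + 1) t = true ∧ ∀ s ≤ t, tr L v (H + 1) s = true := by
    intro j hj
    by_cases h : v 0 j = true ∧ ∀ t, j < t → t ≤ H → v 0 t = false
    · obtain ⟨t, ht1, ht2, ht3⟩ := hv j hj h.1 h.2
      filter_upwards [eventually_ge_atTop (t + 1)] with L hL _ _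
      refine ⟨t, ht1, ?_, fun s hs => ?_⟩
      · rw [tr, if_pos ⟨by omega, by omega⟩, ht2]
      · rw [tr, if_pos ⟨by omega, by omega⟩, ht3 s hs]
    · exact Eventually.of_forall fun L a b => (h ⟨a, b⟩).elim
  have h2 := (eventually_all_finite (finite_lt_nat H)).2 h1
  filter_upwards [h2, eventually_ge_atTop (H + 1)] with L hL hHL j hj a b
  refine hL j hj ?_ (fun t c d => ?_)
  · simpa [tr, show j < L by omega] using a
  · simpa [tr, show t < L by omega] using b t c d

/-- Generic sequences have long runs of zeros along any infinite set, and are irrational. -/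
lemma generic (g : ℕ → ℕ) (T : ℕ → Prop) (hT : ∃ᶠ L in atTop, T L) :
    ∀ᶠ p in residual (ℕ → Bool),
      ¬ Rat0 p ∧ ∃ᶠ L in atTop, T L ∧ ∀ t, L ≤ t → t < g L → p t = false := by
  have hopen : ∀ (t : ℕ) (b : Bool), IsOpen {p : ℕ → Bool | p t = b} := fun t b =>
    (isOpen_discrete ({b} : Set Bool)).preimage (continuous_apply (A := fun _ : ℕ => Bool) t)
  have hdense : ∀ U : Set (ℕ → Bool), (∀ (q : ℕ → Bool) (n : ℕ), ∃ p ∈ U, ∀ t < n, p t = q t) →
      Dense U := by
    intro U hU
    rw [dense_iff_inter_open]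
    rintro O hO ⟨q, hq⟩
    obtain ⟨I, u, hu, hI⟩ := isOpen_pi_iff.1 hO q hq
    obtain ⟨n, hn⟩ := I.finite_toSet.bddAbove
    obtain ⟨p, hp, hpq⟩ := hU q (n + 1)
    refine ⟨p, hI fun i hi => ?_, hp⟩
    rw [hpq i (Nat.lt_succ_of_le (hn hi))]
    exact (hu i hi).2
  have h1 : ∀ N, ∀ᶠ p in residual (ℕ → Bool), ∃ t, N ≤ t ∧ p t = true := by
    intro N
    refine residual_of_dense_open ?_ (hdense _ fun q n => ?_)
    · have : {p : ℕ → Bool | ∃ t, N ≤ t ∧ p t = true} = ⋃ t ∈ Ici N, {p | p t = true} := by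
        ext p; simp
      rw [this]
      exact isOpen_biUnion fun t _ => hopen t true
    · exact ⟨fun t => if t < n then q t else true, ⟨N + n, by omega, by simp⟩,
        fun t ht => by simp [ht]⟩
  have h2 : ∀ N, ∀ᶠ p in residual (ℕ → Bool),
      ∃ L, N ≤ L ∧ T L ∧ ∀ t, L ≤ t → t < g L → p t = false := by
    intro N
    refine residual_of_dense_open ?_ (hdense _ fun q n => ?_)
    · have : {p : ℕ → Bool | ∃ L, N ≤ L ∧ T L ∧ ∀ t, L ≤ t → t < g L → p t = false} =
          ⋃ L ∈ {L | N ≤ L ∧ T L}, ⋂ t ∈ Finset.Ico L (g L), {p | p t = false} := by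
        ext p; simp [and_assoc]
      rw [this]
      exact isOpen_biUnion fun L _ => isOpen_biInter_finset fun t _ => hopen t false
    · obtain ⟨L, hL, hTL⟩ := frequently_atTop.1 hT (N + n)
      exact ⟨fun t => if t < n then q t else false, ⟨L, by omega, hTL, fun t a _ => by
        simp [show ¬ t < n by omega]⟩, fun t ht => by simp [ht]⟩
  filter_upwards [eventually_countable_forall.2 h1, eventually_countable_forall.2 h2] with p a b
  refine ⟨?_, frequently_atTop.2 b⟩
  rintro ⟨n, hn⟩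
  obtain ⟨t, ht, hpt⟩ := a n
  simp [hn t ht] at hpt

/-- A uniform radius on a non-meagre set of irrationals. -/
lemma exists_radius (G : ℕ → Set (ℕ → ℕ → Bool))
    (hG : ∀ m, ∀ z ∈ EE m, ∃ R, ∀ x, Box z R x → x ∈ G m) :
    ∃ g : ℕ → ℕ, ∀ L, ∃ᶠ p in residual (ℕ → Bool), ∀ k ≤ L, ∀ v, mk (tr L v) k p ∈ EE k →
      ∀ x, Box (mk (tr L v) k p) (g L) x → x ∈ G k := by
  have h1 : ∀ L (p : ℕ → Bool), ∃ R, ∀ k ≤ L, ∀ v, mk (tr L v) k p ∈ EE k →
      ∀ x, Box (mk (tr L v) k p) R x → x ∈ G k := by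
    intro L p
    have h2 : ∀ k ∈ Iic L, ∀ᶠ R in atTop, ∀ w ∈ range (tr L), mk w k p ∈ EE k →
        ∀ x, Box (mk w k p) R x → x ∈ G k := by
      intro k _
      rw [eventually_all_finite (finite_range_tr L)]
      intro w _
      by_cases h : mk w k p ∈ EE k
      · obtain ⟨R, hR⟩ := hG k _ h
        filter_upwards [eventually_ge_atTop R] with R' hR' _ x hx
        exact hR x (hx.mono hR')
      · exact Eventually.of_forall fun R a => (h a).elim
    obtain ⟨R, hR⟩ := ((eventually_all_finite (finite_Iic L)).2 h2).exists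
    exact ⟨R, fun k hk v => hR k hk _ ⟨v, rfl⟩⟩
  have h3 : ∀ L, ∃ R, ∃ᶠ p in residual (ℕ → Bool), ∀ k ≤ L, ∀ v, mk (tr L v) k p ∈ EE k →
      ∀ x, Box (mk (tr L v) k p) R x → x ∈ G k := by
    intro L
    by_contra hcon
    simp only [not_exists, not_frequently] at hcon
    obtain ⟨p, hp⟩ := (dense_of_mem_residual (eventually_countable_forall.2 hcon)).nonempty
    obtain ⟨R, hR⟩ := h1 L p
    exact hp R hR
  choose g hg using h3
  exact ⟨g, hg⟩

/-- The invariant of the construction. -/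
structure Inv (g : ℕ → ℕ) (k : ℕ) (v : ℕ → ℕ → Bool) : Prop where
  start : 0 < k → v 0 0 = true
  code : ∀ H < k, Code v H
  run : ∃ᶠ L in atTop, ∀ n < k, ∀ t, L ≤ t → t < g L → v (n + 1) t = false

/-- Agreement of two states. -/
def Agree (k : ℕ) (v x : ℕ → ℕ → Bool) : Prop :=
  (∀ t < k, x 0 t = v 0 t) ∧ ∀ n < k, x (n + 1) = v (n + 1)

lemma step_inv {G : ℕ → Set (ℕ → ℕ → Bool)} {g : ℕ → ℕ}
    (hg : ∀ L, ∃ᶠ p in residual (ℕ → Bool), ∀ k ≤ L, ∀ v, mk (tr L v) k p ∈ EE k →
      ∀ x, Box (mk (tr L v) k p) (g L) x → x ∈ G k) {k : ℕ} {v : ℕ → ℕ → Bool} (h : Inv g k v) :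
    ∃ k' v', Inv g k' v' ∧ k < k' ∧ Agree k v v' ∧ ∀ x, Agree k' v' x → x ∈ G k := by
  have h1 : ∀ᶠ L in atTop, ∀ H < k, Code (tr L v) H :=
    (eventually_all_finite (finite_lt_nat k)).2 fun H hH => code_tr H (h.code H hH)
  obtain ⟨L, hrun, hcode, hkL⟩ := (h.run.and_eventually (h1.and (eventually_ge_atTop k))).exists
  obtain ⟨p, hp, hirr, hgen⟩ := ((hg L).and_eventually (generic g _ h.run)).exists
  have hlen : ∀ n, k < n → Rat0 (mk v k p (n + 1)) := by
    intro n hn
    have hex : ∃ t, n < t ∧ p t = true := by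
      by_contra hcon
      push Not at hcon
      exact hirr ⟨n + 1, fun t ht => by simpa using hcon t (by omega)⟩
    obtain ⟨t, ht1, ht2⟩ := hex
    refine ⟨t + 1, fun s hs => ?_⟩
    rw [mk_gt v p hn]
    simp only [decide_eq_false_iff_not, not_forall]
    exact ⟨t, by omega, ht1, by simp [ht2]⟩
  have hzero : ∀ w : ℕ → ℕ → Bool, (0 < k → w 0 0 = true) → mk w k p 0 0 = true := by
    intro w hw
    rw [mk_zero]
    split_ifs with hk
    · exact hw hk
    · simp; omega
  have hctl : Rat0 (mk (tr L v) k p 0) := ⟨k + 1, fun t ht => by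
    rw [mk_zero, if_neg (by omega)]; simp; omega⟩
  have htr : ∀ n < k, Rat0 (tr L v (n + 1)) :=
    fun n _ => ⟨L, fun t ht => by simp [tr, not_lt.2 ht]⟩
  refine ⟨max (g L) (k + 1), mk v k p, ⟨fun _ => hzero v h.start, fun H _ => code_mk hirr h.code H,
    ?_⟩, by omega, ⟨fun t ht => by simp [mk_zero, ht], fun n hn => mk_lt v p hn⟩, ?_⟩
  · have h2 : ∀ᶠ L' in atTop, ∀ n ∈ Iio (max (g L) (k + 1)), k < n →
        ∀ t, L' ≤ t → mk v k p (n + 1) t = false := by
      rw [eventually_all_finite (finite_Iio _)]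
      intro n _
      by_cases hn : k < n
      · obtain ⟨a, ha⟩ := hlen n hn
        filter_upwards [eventually_ge_atTop a] with L' hL' _ t ht
        exact ha t (hL'.trans ht)
      · exact Eventually.of_forall fun _ a => (hn a).elim
    refine (hgen.and_eventually h2).mono ?_
    rintro L' ⟨⟨a, b⟩, c⟩ n hn t ht1 ht2
    rcases lt_trichotomy n k with hnk | hnk | hnk
    · rw [mk_lt v p hnk]; exact a n hnk t ht1 ht2
    · rw [hnk, mk_eq]; exact b t ht1 ht2
    · exact c n hn hnk t ht1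
  · intro x hx
    refine hp k hkL v ⟨?_, hzero _ ?_, code_mk hirr hcode⟩ x ?_
    · intro i hi
      rcases i with _ | n
      · exact hctl
      · rw [mk_lt _ p (by omega)]; exact htr n (by omega)
    · intro hk
      rw [tr, if_pos ⟨by omega, by omega⟩, h.start hk]
    · intro i hi
      rcases i with _ | n
      · refine ⟨fun t ht => ?_, fun hn => (hn hctl).elim⟩
        rw [hx.1 t (by omega), mk_zero, mk_zero]
        split_ifs with htk
        · rw [tr, if_pos ⟨by omega, by omega⟩]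
        · rfl
      · have e := hx.2 n (by omega)
        rcases lt_trichotomy n k with hnk | hnk | hnk
        · rw [mk_lt _ p hnk] at e ⊢
          refine ⟨fun t ht => ?_, fun hn => (hn (htr n hnk)).elim⟩
          rw [e, tr]
          split_ifs with hc
          · rfl
          · exact hrun n hnk t (by omega) ht
        · subst hnk
          rw [mk_eq] at e ⊢
          exact ⟨fun t _ => by rw [e], fun _ => e⟩
        · rw [mk_gt _ p hnk] at e ⊢
          exact ⟨fun t _ => by rw [e], fun _ => e⟩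

/-- Any open expansion of the sets has a point in infinitely many members. -/
theorem exists_mem_frequently (G : ℕ → Set (ℕ → ℕ → Bool))
    (hG : ∀ m, ∀ z ∈ EE m, ∃ R, ∀ x, Box z R x → x ∈ G m) :
    ∃ x, ∀ m, ∃ k, m ≤ k ∧ x ∈ G k := by
  obtain ⟨g, hg⟩ := exists_radius G hG
  have hstep : ∀ s : {s : ℕ × (ℕ → ℕ → Bool) // Inv g s.1 s.2},
      ∃ s' : {s : ℕ × (ℕ → ℕ → Bool) // Inv g s.1 s.2}, s.1.1 < s'.1.1 ∧
        Agree s.1.1 s.1.2 s'.1.2 ∧ ∀ x, Agree s'.1.1 s'.1.2 x → x ∈ G s.1.1 := by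
    intro s
    obtain ⟨k', v', h1, h2⟩ := step_inv hg s.2
    exact ⟨⟨(k', v'), h1⟩, h2⟩
  choose f hf1 hf2 hf3 using hstep
  let s0 : {s : ℕ × (ℕ → ℕ → Bool) // Inv g s.1 s.2} :=
    ⟨(0, fun _ _ => false), ⟨by simp, by simp, Frequently.of_forall (by simp)⟩⟩
  let k : ℕ → ℕ := fun r => (f^[r] s0).1.1
  let v : ℕ → ℕ → ℕ → Bool := fun r => (f^[r] s0).1.2
  have hk : StrictMono k := strictMono_nat_of_lt_succ fun r => by
    simp only [k, Function.iterate_succ_apply']; exact hf1 _
  have hA : ∀ r r', r ≤ r' → Agree (k r) (v r) (v r') := by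
    intro r r' hr
    induction r', hr using Nat.le_induction with
    | base => exact ⟨fun _ _ => rfl, fun _ _ => rfl⟩
    | succ n hn ih =>
      have h1 : Agree (k n) (v n) (v (n + 1)) := by
        simp only [k, v, Function.iterate_succ_apply']; exact hf2 _
      have h2 := hk.monotone hn
      exact ⟨fun t ht => (h1.1 t (by omega)).trans (ih.1 t ht),
        fun t ht => (h1.2 t (by omega)).trans (ih.2 t ht)⟩
  let x : ℕ → ℕ → Bool := fun i => match i with
    | 0 => fun t => v (t + 1) 0 t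
    | n + 1 => v (n + 1) (n + 1)
  have hx : ∀ r, Agree (k r) (v r) x := by
    intro r
    constructor
    · intro t ht
      have h1 := hk.le_apply (x := t + 1)
      rcases le_total r (t + 1) with h | h
      · exact (hA _ _ h).1 t ht
      · exact ((hA _ _ h).1 t (by omega)).symm
    · intro t ht
      have h1 := hk.le_apply (x := t + 1)
      rcases le_total r (t + 1) with h | h
      · exact (hA _ _ h).2 t ht
      · exact ((hA _ _ h).2 t (by omega)).symm
  refine ⟨x, fun m => ⟨k m, hk.le_apply, ?_⟩⟩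
  have := hx (m + 1)
  simp only [k, v, Function.iterate_succ_apply'] at this
  exact hf3 _ x this

end Pool.Agent.Lib.MP_bc8021_gt
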