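import Pool.Agent.Lib.MP_bc8021_gt.Gen
import Pool.Agent.Lib.MP_bc8021_gt.Defs2
import Pool.Agent.Lib.MP_bc8021_gt.Mich

/-!
The Michael line over the Cantor set, its infinite powers, and the hereditary form of the
product theorem.
-/

open Set Filter Topology TopologicalSpace

namespace Pool.Agent.Lib.MP_bc8021_gt

universe u

lemma Near.refl (z : ℕ → Bool) (R : ℕ) : Near z R z := ⟨fun _ _ => rfl, fun _ => rfl⟩

lemma Near.trans {z y x : ℕ → Bool} {R : ℕ} (h1 : Near z R y) (h2 : Near y R x) : Near z R x :=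
  ⟨fun t ht => (h2.1 t ht).trans (h1.1 t ht), fun hz => by
    have := h1.2 hz
    subst this
    exact h2.2 hz⟩

lemma Near.mono {z x : ℕ → Bool} {R R' : ℕ} (h : R ≤ R') (hx : Near z R' x) : Near z R x :=
  ⟨fun t ht => hx.1 t (by omega), hx.2⟩

/-- The Michael line over the Cantor set. -/
def ML : Type u := ULift.{u} (ℕ → Bool)

instance : TopologicalSpace ML.{u} where
  IsOpen U := ∀ z ∈ U, ∃ R, ∀ x : ML.{u}, Near z.down R x.down → x ∈ U
  isOpen_univ := fun _ _ => ⟨0, fun _ _ => trivial⟩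
  isOpen_inter := by
    intro U V hU hV z hz
    obtain ⟨R, hR⟩ := hU z hz.1
    obtain ⟨R', hR'⟩ := hV z hz.2
    exact ⟨max R R', fun x hx => ⟨hR x (hx.mono (le_max_left _ _)),
      hR' x (hx.mono (le_max_right _ _))⟩⟩
  isOpen_sUnion := by
    rintro S hS z ⟨U, hU, hz⟩
    obtain ⟨R, hR⟩ := hS U hU z hz
    exact ⟨R, fun x hx => ⟨U, hU, hR x hx⟩⟩

lemma ML.isOpen_iff {U : Set ML.{u}} :
    IsOpen U ↔ ∀ z ∈ U, ∃ R, ∀ x : ML.{u}, Near z.down R x.down → x ∈ U := Iff.rfl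

/-- Basic sets of the Michael line. -/
def nb (z : ℕ → Bool) (R : ℕ) : Set ML.{u} := {x | Near z R x.down}

lemma isOpen_nb (z : ℕ → Bool) (R : ℕ) : IsOpen (nb.{u} z R) :=
  fun _ hy => ⟨R, fun _ hx => Near.trans hy hx⟩

lemma isClosed_nb (z : ℕ → Bool) (R : ℕ) : IsClosed (nb.{u} z R) := by
  rw [← isOpen_compl_iff, ML.isOpen_iff]
  intro y hy
  by_cases hz : Rat0 z
  · refine ⟨R, fun x hx hxz => hy ⟨fun t ht => (hx.1 t ht).symm.trans (hxz.1 t ht),
      fun h => (h hz).elim⟩⟩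
  · have hne : y.down ≠ z := fun h => hy (by rw [nb, mem_ofPred_eq, h]; exact Near.refl _ _)
    obtain ⟨t, ht⟩ := Function.ne_iff.1 hne
    exact ⟨t + 1, fun x hx hxz => ht ((hx.1 t (by omega)).symm.trans (by rw [hxz.2 hz]))⟩

lemma ML.basis : IsTopologicalBasis {U : Set ML.{u} | ∃ z R, U = nb z R} := by
  refine isTopologicalBasis_of_isOpen_of_nhds ?_ ?_
  · rintro _ ⟨z, R, rfl⟩
    exact isOpen_nb z R
  · intro a U ha hU
    obtain ⟨R, hR⟩ := hU a ha
    exact ⟨nb a.down R, ⟨_, _, rfl⟩, Near.refl _ _, hR⟩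

lemma nb_total {z z' : ℕ → Bool} {R R' : ℕ} {x : ML.{u}} (h : x ∈ nb z R) (h' : x ∈ nb z' R') :
    nb.{u} z R ⊆ nb z' R' ∨ nb.{u} z' R' ⊆ nb z R := by
  by_cases hz : Rat0 z
  swap
  · left
    intro y hy
    have : y.down = x.down := (hy.2 hz).trans (h.2 hz).symm
    rw [nb, mem_ofPred_eq, this]; exact h'
  by_cases hz' : Rat0 z'
  swap
  · right
    intro y hy
    have : y.down = x.down := (hy.2 hz').trans (h'.2 hz').symm
    rw [nb, mem_ofPred_eq, this]; exact h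
  rcases le_total R R' with hR | hR
  · right
    exact fun y hy => ⟨fun t ht => (hy.1 t (by omega)).trans
      ((h'.1 t (by omega)).symm.trans (h.1 t ht)), fun a => (a hz).elim⟩
  · left
    exact fun y hy => ⟨fun t ht => (hy.1 t (by omega)).trans
      ((h.1 t (by omega)).symm.trans (h'.1 t ht)), fun a => (a hz').elim⟩

lemma ML.rank (x : ML.{u}) : RankLEAt {U : Set ML.{u} | ∃ z R, U = nb z R} 1 x := by
  intro A hA hx hanti
  rw [Nat.cast_one, encard_le_one_iff]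
  intro a b ha hb
  by_contra hne
  obtain ⟨z, R, rfl⟩ := hA ha
  obtain ⟨z', R', rfl⟩ := hA hb
  rcases nb_total (hx _ ha) (hx _ hb) with h | h
  · exact hanti ha hb hne h
  · exact hanti hb ha (Ne.symm hne) h

instance : T3Space ML.{u} := by
  have h0 : T0Space ML.{u} := by
    rw [t0Space_iff_exists_isOpen_xor_mem]
    intro x y hxy
    have hne : x.down ≠ y.down := fun h => hxy (ULift.ext _ _ h)
    obtain ⟨t, ht⟩ := Function.ne_iff.1 hne
    exact ⟨nb x.down (t + 1), isOpen_nb _ _, Or.inl ⟨Near.refl _ _,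
      fun h => ht (h.1 t (by omega)).symm⟩⟩
  have h1 : RegularSpace ML.{u} := by
    refine RegularSpace.of_exists_mem_nhds_isClosed_subset fun x s hs => ?_
    obtain ⟨_, ⟨z, R, rfl⟩, h1, h2⟩ := ML.basis.mem_nhds_iff.1 hs
    exact ⟨nb z R, (isOpen_nb z R).mem_nhds h1, isClosed_nb z R, h2⟩
  exact {}

theorem not_countablyMetacompact_pow (ι : Type*) [Infinite ι] :
    ¬ CountablyMetacompact (ι → ML.{u}) := by
  classical
  intro h
  let e : ℕ ↪ ι := Infinite.natEmbedding ι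
  let r : (ι → ML.{u}) → ℕ → ℕ → Bool := fun x n => (x (e n)).down
  let s : (ℕ → ℕ → Bool) → ι → ML.{u} :=
    fun z i => ULift.up (Function.extend e z (fun _ _ => false) i)
  have hs : ∀ z n, (s z (e n)).down = z n := fun z n =>
    e.injective.extend_apply z (fun _ _ => false) n
  have hrs : ∀ z, r (s z) = z := fun z => funext (hs z)
  let W : ℕ → Set (ι → ML.{u}) := fun m => {x | ∃ R, ∀ z, Box (r x) R z → z ∉ EE m}
  obtain ⟨𝒱, hVo, hVc, hVr, hVf⟩ := h (range W) (countable_range W)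
    (by
      rintro _ ⟨m, rfl⟩
      rw [isOpen_iff_forall_mem_open]
      rintro x ⟨R, hR⟩
      refine ⟨⋂ n ∈ Finset.range R, (fun y : ι → ML.{u} => y (e n)) ⁻¹' nb (r x n) R, ?_,
        isOpen_biInter_finset fun n _ => (isOpen_nb _ _).preimage (continuous_apply (e n)), ?_⟩
      · intro y hy
        simp only [mem_iInter, Finset.mem_range] at hy
        exact ⟨R, fun z hz => hR z fun i hi => Near.trans (hy i hi) (hz i hi)⟩
      · simp only [mem_iInter]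
        exact fun n _ => Near.refl _ _)
    (by
      rw [eq_univ_iff_forall]
      intro x
      obtain ⟨m, R, hR⟩ := exists_box_disjoint (r x)
      exact ⟨W m, ⟨m, rfl⟩, R, hR⟩)
  obtain ⟨x, hx⟩ := exists_mem_frequently
    (fun m => {z | ∃ V ∈ 𝒱, s z ∈ V ∧ ∃ z' ∈ EE m, s z' ∈ V}) (by
      intro m z hz
      obtain ⟨V, hV, hzV⟩ : s z ∈ ⋃₀ 𝒱 := hVc ▸ mem_univ _
      obtain ⟨I, u, hu, hI⟩ := isOpen_pi_iff.1 (hVo V hV) _ hzV
      have h1 : ∀ i ∈ I, ∀ᶠ R in atTop, ∀ x, Box z R x → s x i ∈ u i := by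
        intro i hi
        by_cases hie : ∃ n, e n = i
        · obtain ⟨n, rfl⟩ := hie
          obtain ⟨R, hR⟩ := (hu _ hi).1 _ (hu _ hi).2
          filter_upwards [eventually_ge_atTop (max R (n + 1))] with R' hR' x hx
          refine hR _ ?_
          rw [hs, hs]
          exact (hx n (by omega)).mono (by omega)
        · refine Eventually.of_forall fun R x _ => ?_
          have : s x i = s z i := by
            simp only [s, Function.extend_apply' _ _ _ hie]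
          rw [this]
          exact (hu i hi).2
      obtain ⟨R, hR⟩ := ((eventually_all_finset I).2 h1).exists
      exact ⟨R, fun x hx => ⟨V, hV, hI fun i hi => hR i hi x hx, z, hz, hzV⟩⟩)
  have h2 : ∀ V ∈ {V | V ∈ 𝒱 ∧ s x ∈ V}, ∀ᶠ k in atTop, ∀ z' ∈ EE k, s z' ∉ V := by
    intro V hV
    obtain ⟨_, ⟨m, rfl⟩, hVW⟩ := hVr V hV.1
    filter_upwards [eventually_ge_atTop m] with k hk z' hz' hzV
    obtain ⟨R, hR⟩ := hVW hzV
    rw [hrs] at hR
    exact hR z' (fun i _ => Near.refl _ _) (EE_anti hk hz')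
  obtain ⟨m, hm⟩ := eventually_atTop.1 ((eventually_all_finite (hVf (s x))).2 h2)
  obtain ⟨k, hk, V, hV, hxV, z', hz', hzV⟩ := hx m
  exact hm k hk V ⟨hV, hxV⟩ z' hz' hzV

/-- A space with a base that is well-quasi-ordered at each point is metacompact. -/
theorem metacompact_of_pw {Y : Type*} [TopologicalSpace Y] (F : Set (Set Y))
    (hFo : ∀ U ∈ F, IsOpen U) (hPW : PW F)
    (hFb : ∀ N, IsOpen N → ∀ x ∈ N, ∃ U ∈ F, x ∈ U ∧ U ⊆ N) : Metacompact Y := by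
  intro 𝒰 h𝒰 hcov
  let Small : Set Y → Prop := fun b => b ∈ F ∧ ∃ U ∈ 𝒰, b ⊆ U
  have hpwo : ∀ p : Y, {b | Small b ∧ p ∈ b}.PartiallyWellOrderedOn (· ⊇ ·) :=
    fun p => (hPW p).mono fun b hb => ⟨hb.1.1, hb.2⟩
  refine ⟨{b | Maximal Small b}, fun V hV => hFo V hV.prop.1, ?_, fun V hV => hV.prop.2, ?_⟩
  · rw [eq_univ_iff_forall]
    intro p
    obtain ⟨U, hU, hpU⟩ : p ∈ ⋃₀ 𝒰 := hcov ▸ mem_univ p
    obtain ⟨b, hbF, hpb, hbU⟩ := hFb U (h𝒰 U hU) p hpU
    have hb : b ∈ {b | Small b ∧ p ∈ b} := ⟨⟨hbF, U, hU, hbU⟩, hpb⟩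
    obtain ⟨m, hm, hmin⟩ := (wellFoundedOn_iff.1 (hpwo p).wellFoundedOn).has_min _ ⟨b, hb⟩
    refine ⟨m, ⟨hm.1, ?_⟩, hm.2⟩
    intro c hc hmc
    have hcm : c ∈ {b | Small b ∧ p ∈ b} := ⟨hc, hmc hm.2⟩
    by_contra hne
    exact hmin c hcm ⟨⟨hmc, hne⟩, hcm, hm⟩
  · intro p
    refine IsAntichain.finite_of_partiallyWellOrderedOn ?_
      ((hpwo p).mono fun b hb => ⟨hb.1.prop, hb.2⟩)
    intro a ha b hb hne hab
    exact hne (Subset.antisymm (hb.1.le_of_ge ha.1.prop hab) hab)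

theorem metacompact_subspace_pi {ι : Type*} [Finite ι] (X : ι → Type*)
    [∀ i, TopologicalSpace (X i)] [∀ i, T1Space (X i)]
    (h : ∀ i, ∃ B : Set (Set (X i)), IsTopologicalBasis B ∧ PointFiniteRank B)
    (S : Set (∀ i, X i)) : Metacompact S := by
  choose B hB hr using h
  choose F _ hFo hPW hFb using fun i => exists_pw_open_base (hB i) (hr i)
  let φ : (∀ i, Set (X i)) → Set S := fun b => Subtype.val ⁻¹' univ.pi b
  refine metacompact_of_pw (φ '' {b | ∀ i, b i ∈ F i}) ?_ ?_ ?_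
  · rintro _ ⟨b, hb, rfl⟩
    exact (isOpen_set_pi finite_univ fun i _ => hFo i _ (hb i)).preimage continuous_subtype_val
  · intro p
    have h1 := (Set.PartiallyWellOrderedOn.pi (fun i => hPW i (p.1 i))).image_of_monotone_on
      (r' := (· ⊇ ·)) (f := φ) (fun a _ b _ hab => preimage_mono (pi_mono fun i _ => hab i))
    refine h1.mono ?_
    rintro _ ⟨⟨b, hb, rfl⟩, hp⟩
    exact ⟨b, fun i _ => ⟨hb i, hp i (mem_univ i)⟩, rfl⟩
  · intro N hN x hx
    obtain ⟨O, hO, rfl⟩ := isOpen_induced_iff.1 hN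
    obtain ⟨u, hu, huU⟩ := isOpen_pi_iff'.1 hO x.1 hx
    choose b hbF hpb hbu using fun i => hFb i (u i) (hu i).1 (x.1 i) (hu i).2
    exact ⟨φ b, ⟨b, hbF, rfl⟩, fun i _ => hpb i,
      preimage_mono ((pi_mono fun i _ => hbu i).trans huU)⟩

theorem metacompact_of_univ {Y : Type*} [TopologicalSpace Y] (h : Metacompact (univ : Set Y)) :
    Metacompact Y := by
  intro 𝒰 h𝒰 hcov
  let e := Homeomorph.Set.univ Y
  obtain ⟨𝒱, h1, h2, h3, h4⟩ := h ((fun U => e ⁻¹' U) '' 𝒰)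
    (by rintro _ ⟨U, hU, rfl⟩; exact (h𝒰 U hU).preimage e.continuous)
    (by
      rw [eq_univ_iff_forall]
      intro p
      obtain ⟨U, hU, hpU⟩ : e p ∈ ⋃₀ 𝒰 := by rw [hcov]; exact mem_univ _
      exact ⟨_, ⟨U, hU, rfl⟩, hpU⟩)
  refine ⟨(fun V => e.symm ⁻¹' V) '' 𝒱, ?_, ?_, ?_, ?_⟩
  · rintro _ ⟨V, hV, rfl⟩
    exact (h1 V hV).preimage e.symm.continuous
  · rw [eq_univ_iff_forall]
    intro p
    obtain ⟨V, hV, hpV⟩ : e.symm p ∈ ⋃₀ 𝒱 := h2 ▸ mem_univ _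
    exact ⟨_, ⟨V, hV, rfl⟩, hpV⟩
  · rintro _ ⟨V, hV, rfl⟩
    obtain ⟨_, ⟨U, hU, rfl⟩, hVU⟩ := h3 V hV
    exact ⟨U, hU, fun y hy => by simpa using hVU hy⟩
  · intro p
    refine ((h4 (e.symm p)).image fun V => e.symm ⁻¹' V).subset ?_
    rintro _ ⟨⟨V, hV, rfl⟩, hp⟩
    exact ⟨V, ⟨hV, hp⟩, rfl⟩

end Pool.Agent.Lib.MP_bc8021_gt
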