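import Pool.Agent.Lib.MP_bc8021_gt.Main
import Pool.Agent.Lib.MP_bc8021_gt.Defs

open Set TopologicalSpace

namespace Pool.Agent.Lib.MP_bc8021_gt

lemma RankLEAt.wid {X : Type*} {Γ : Set (Set X)} {n : ℕ} {x : X} (h : RankLEAt Γ n x) :
    Wid Γ x n := by
  intro T hT hA
  have := h (T : Set (Set X)) (fun U hU => (hT U hU).1) (fun U hU => (hT U hU).2) hA
  rw [Set.encard_coe_eq_coe_finsetCard] at this
  exact_mod_cast this

/-- An R0 space with a base of point-finite rank has a base that is well-quasi-ordered by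
reverse inclusion at every point. -/
theorem exists_pw_open_base {X : Type*} [TopologicalSpace X] [R0Space X] {B : Set (Set X)}
    (hB : IsTopologicalBasis B) (hr : PointFiniteRank B) :
    ∃ F ⊆ cl B, (∀ U ∈ F, IsOpen U) ∧ PW F ∧
      ∀ N, IsOpen N → ∀ x ∈ N, ∃ U ∈ F, x ∈ U ∧ U ⊆ N := by
  obtain ⟨_, _⟩ := exists_wellFoundedLT (X × X)
  have hopen : ∀ U ∈ cl B, IsOpen U := by
    intro U hU
    rw [isOpen_iff_forall_mem_open]
    intro x hx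
    obtain ⟨D, hD, h1, h2⟩ := hU {x} (finite_singleton x) (singleton_subset_iff.2 hx)
    exact ⟨D, h2, hB.isOpen hD, h1 rfl⟩
  have hsub : ∀ N, IsOpen N → ∀ x ∈ N, ∃ Z ∈ cl B, x ∈ Z ∧ Z ⊆ N := by
    intro N hN x hx
    obtain ⟨Z, hZ, h1, h2⟩ := hB.exists_subset_of_mem_open hx hN
    exact ⟨Z, subset_cl B hZ, h1, h2⟩
  let P : Set X → Set (X × X) := fun D => {p | p.1 ∈ D ∧ p.2 ∈ D ∧ ¬ p.1 ⤳ p.2}
  have hP : Markers P := by
    constructor
    · intro D E hDE p hp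
      exact ⟨hDE hp.1, hDE hp.2.1, hp.2.2⟩
    · intro M p hp
      refine ⟨{p.1, p.2}, Set.toFinite _, ?_, by simp, by simp, hp.2.2⟩
      rintro y (rfl | rfl)
      · exact hp.1
      · exact hp.2.1
  obtain ⟨F, hF, hPW, hFb⟩ := exists_pw_base (cl_cl B) hP
    (fun x => (hr x).imp fun n hn => hn.wid.cl)
    (fun x D hD E hE hxD hxE => hsub _ ((hopen D hD).inter (hopen E hE)) x ⟨hxD, hxE⟩)
    (by
      intro x N hN hx p
      by_cases h12 : p.1 ⤳ p.2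
      · exact ⟨N, hN, hx, Subset.rfl, fun h => h.2.2 h12⟩
      by_cases h1 : p.1 ⤳ x
      · have h2 : ¬ p.2 ⤳ x := fun h => h12 (h1.trans h.symm)
        obtain ⟨O, hO, hxO, hpO⟩ := not_specializes_iff_exists_open.1 h2
        obtain ⟨Z, hZ, hxZ, hZs⟩ := hsub _ ((hopen N hN).inter hO) x ⟨hx, hxO⟩
        exact ⟨Z, hZ, hxZ, hZs.trans inter_subset_left, fun h => hpO (hZs h.2.1).2⟩
      · obtain ⟨O, hO, hxO, hpO⟩ := not_specializes_iff_exists_open.1 h1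
        obtain ⟨Z, hZ, hxZ, hZs⟩ := hsub _ ((hopen N hN).inter hO) x ⟨hx, hxO⟩
        exact ⟨Z, hZ, hxZ, hZs.trans inter_subset_left, fun h => hpO (hZs h.1).2⟩)
    (by
      intro V _ hPV x hx N hN hxN y hy
      have hyx : y ⤳ x := by
        by_contra hne
        have : (y, x) ∈ P V := ⟨hy, hx, hne⟩
        rw [hPV] at this
        exact this
      exact hyx.mem_open (hopen N hN) hxN)
  refine ⟨F, hF, fun U hU => hopen U (hF hU), hPW, ?_⟩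
  intro N hN x hx
  obtain ⟨Z, hZ, hxZ, hZN⟩ := hsub N hN x hx
  obtain ⟨U, hU, hxU, hUZ⟩ := hFb Z hZ x hxZ
  exact ⟨U, hU, hxU, hUZ.trans hZN⟩

theorem metacompact_pi {ι : Type*} [Finite ι] {X : ι → Type*} [∀ i, TopologicalSpace (X i)]
    (F : ∀ i, Set (Set (X i))) (hFo : ∀ i, ∀ U ∈ F i, IsOpen U) (hPW : ∀ i, PW (F i))
    (hFb : ∀ i N, IsOpen N → ∀ x ∈ N, ∃ U ∈ F i, x ∈ U ∧ U ⊆ N) : Metacompact (∀ i, X i) := by
  intro 𝒰 h𝒰 hcov
  let Small : (∀ i, Set (X i)) → Prop := fun b => (∀ i, b i ∈ F i) ∧ ∃ U ∈ 𝒰, univ.pi b ⊆ U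
  have hpwo : ∀ p : ∀ i, X i, {b : ∀ i, Set (X i) | Small b ∧ ∀ i, p i ∈ b i}.PartiallyWellOrderedOn
      (fun a b => ∀ i, a i ⊇ b i) := by
    intro p
    refine (Set.PartiallyWellOrderedOn.pi (fun i => hPW i (p i))).mono ?_
    intro b hb i _
    exact ⟨hb.1.1 i, hb.2 i⟩
  refine ⟨(fun b => univ.pi b) '' {b | Maximal Small b}, ?_, ?_, ?_, ?_⟩
  · rintro V ⟨b, hb, rfl⟩
    exact isOpen_set_pi finite_univ (fun i _ => hFo i _ (hb.prop.1 i))
  · rw [eq_univ_iff_forall]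
    intro p
    obtain ⟨U, hU, hpU⟩ : p ∈ ⋃₀ 𝒰 := hcov ▸ mem_univ p
    obtain ⟨u, hu, huU⟩ := isOpen_pi_iff'.1 (h𝒰 U hU) p hpU
    choose b hbF hpb hbu using fun i => hFb i (u i) (hu i).1 (p i) (hu i).2
    have hb : b ∈ {b : ∀ i, Set (X i) | Small b ∧ ∀ i, p i ∈ b i} :=
      ⟨⟨hbF, U, hU, (pi_mono fun i _ => hbu i).trans huU⟩, hpb⟩
    have : IsPreorder (∀ i, Set (X i)) (fun a b => ∀ i, a i ⊇ b i) :=
      { refl a i := Subset.rfl
        trans a b c hab hbc i := (hbc i).trans (hab i) }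
    obtain ⟨m, hm, hmin⟩ := (wellFoundedOn_iff.1 (hpwo p).wellFoundedOn).has_min _ ⟨b, hb⟩
    refine ⟨univ.pi m, ⟨m, ⟨hm.1, ?_⟩, rfl⟩, fun i _ => hm.2 i⟩
    intro c hc hmc
    have hcm : c ∈ {b : ∀ i, Set (X i) | Small b ∧ ∀ i, p i ∈ b i} :=
      ⟨hc, fun i => hmc i (hm.2 i)⟩
    by_contra hne
    exact hmin c hcm ⟨⟨fun i => hmc i, hne⟩, hcm, hm⟩
  · rintro V ⟨b, hb, rfl⟩
    exact hb.prop.2
  · intro p
    have hfin : {b : ∀ i, Set (X i) | Maximal Small b ∧ ∀ i, p i ∈ b i}.Finite := by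
      refine IsAntichain.finite_of_partiallyWellOrderedOn ?_
        ((hpwo p).mono fun b hb => ⟨hb.1.prop, hb.2⟩)
      intro a ha b hb hne hab
      exact hne (le_antisymm (hb.1.le_of_ge ha.1.prop hab) hab)
    refine (hfin.image fun b => univ.pi b).subset ?_
    rintro V ⟨⟨b, hb, rfl⟩, hp⟩
    exact ⟨b, ⟨hb, fun i => hp i (mem_univ i)⟩, rfl⟩

end Pool.Agent.Lib.MP_bc8021_gt
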